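import Pool.Agent.Helper48.KV.DefsJ

/-!
# PROJECT KV (MP_66be51_an), section G5: goals for the left functional

Notation in the doc strings: `c = cJ α K t x`, `d = dJ`, `φ = pW α K t x`, `P, Q, R, E, h` =
`PJ, QJ, RJ, EJ, hJ` at `(κ, r, t, z x)`, `η = z/(3t)`, `λ, ρ, σ` at time `t`; `1_n = ind`.
All constants `C, T0` are independent of `r > 0`.
-/

open MeasureTheory Set Filter Topology

noncomputable section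

namespace Pool.Agent.Helper48.KV

open Pool.Agent.Helper33.KV Pool.Agent.Helper41.KV

/-- **SCL (0.5 h).** Scaling relations for small times.
PROOF.  `σ^(4α+3) = (4α+3)t <= 1`, `λ = σ^(2α+1)`, `ρ = σ^(2α)`, real powers (`Real.rpow_add`, ...). `t/λ^2 = σ^(4α+3)/((4α+3) σ^(4α+2))
= σ/(4α+3)`; `ρ/λ^3 = σ^(2α-6α-3) = σ^(-(4α+3))`. `ρ = ((4α+3)t)^(2α/(4α+3)) <= 7 t^(2α/(4α+3))`, and
`t^(2α/(4α+3)) <= t^(4κ)` for `t <= 1`, `4κ <= 2α/(4α+3)`. -/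
def S_SCL : Prop :=
  ∀ α t : ℝ, 0 < α → α < 1 → 0 < t → (4 * α + 3) * t ≤ 1 →
    0 < sig α t ∧ sig α t ≤ 1 ∧ 0 < lam α t ∧ lam α t ≤ 1 ∧ 0 < rho α t ∧ rho α t ≤ 1 ∧
    lam α t ≤ rho α t ∧ lam α t = rho α t * sig α t ∧
    t / lam α t ^ 2 = sig α t / (4 * α + 3) ∧ t ≤ lam α t ^ 2 ∧
    rho α t / lam α t ^ 3 = 1 / ((4 * α + 3) * t) ∧
    ∀ κ : ℝ, 0 < κ → 4 * κ ≤ 2 * α / (4 * α + 3) → rho α t ≤ 7 * t ^ (4 * κ)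

/-- **JW (1.5 h).** Calculus of the weights.
PROOF.  Put `s = 3t + rz > 0`. `h = (z/s)^κ`, `∂_z log h = κ(1/z - r/s) = 3κt/(zs)`, so `∂_z h = Q/(3t)`.
`Q = 9κt^2 z^(κ-1) s^(-κ-1)`: `∂_z log Q = (κ-1)/z - (κ+1) r/s`, so `∂_z Q = -R`. `P = h - (z/(3t)) Q`:
`∂_z P = Q/(3t) - Q/(3t) + (z/(3t)) R = E`. `∂_t log h = -3κ/s`, so `∂_t h = -3κ h/s = -(z/(3t^2)) Q`;
`∂_t log Q = 2/t - 3(κ+1)/s = ((1-κ) s·... )`: check `∂_t Q = 3E`: `3E/Q = (z/t)((1-κ)/z + (1+κ)r/s) =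
((1-κ)s + (1+κ) r z)/(ts) = (2s - 3(1+κ)t)/(ts)` since `rz = s - 3t`; equal. `∂_t P = ∂_t h - ∂_t((z/(3t))Q) =
-(z/(3t^2))Q + (z/(3t^2))Q - (z/(3t)) 3E = -(z/t) E`.
Bounds: `3κt/s <= κ`; `9t^2/(zs) <= 3t/z`; `r/s <= 1/z`; `(1-κ)/z + (1+κ)r/s <= 2/z`;
`R = 9κt^2[(1-κ) z^(κ-2) s^(-κ-1) + (1+κ) r z^(κ-1) s^(-κ-2)]` and
`E = 3κt[(1-κ) z^(κ-1) s^(-κ-1) + (1+κ) r z^κ s^(-κ-2)]`: each monomial `z^a s^b` has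
`∂_z = (a/z + br/s) z^a s^b`, `∂_z^2 = ((a/z+br/s)^2 - a/z^2 - b r^2/s^2) z^a s^b`, with `|a| + |b| <= 3`,
so `|∂_z| <= 3/z`, `|∂_z^2| <= 12/z^2` times it. `h <= (z/(3t))^κ` as `s >= 3t`; if `rz <= t` then
`s <= 4t`. -/
def S_JW : Prop :=
  ∀ κ r t z : ℝ, 0 < κ → κ ≤ 1 / 4 → 0 < r → 0 < t → 0 < z →
    HasDerivAt (hJ κ r t) (QJ κ r t z / (3 * t)) z ∧
    HasDerivAt (QJ κ r t) (-RJ κ r t z) z ∧ HasDerivAt (PJ κ r t) (EJ κ r t z) z ∧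
    HasDerivAt (fun s => QJ κ r s z) (3 * EJ κ r t z) t ∧
    HasDerivAt (fun s => PJ κ r s z) (-(z / t) * EJ κ r t z) t ∧
    0 < hJ κ r t z ∧ (1 - κ) * hJ κ r t z ≤ PJ κ r t z ∧ PJ κ r t z ≤ hJ κ r t z ∧
    0 < QJ κ r t z ∧ QJ κ r t z ≤ 3 * κ * t / z * hJ κ r t z ∧
    0 < RJ κ r t z ∧ RJ κ r t z ≤ 2 / z * QJ κ r t z ∧
    0 < EJ κ r t z ∧ EJ κ r t z ≤ 2 / (3 * t) * QJ κ r t z ∧
    |deriv (RJ κ r t) z| ≤ 3 / z * RJ κ r t z ∧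
    |deriv (deriv (RJ κ r t)) z| ≤ 12 / z ^ 2 * RJ κ r t z ∧
    |deriv (EJ κ r t) z| ≤ 3 / z * EJ κ r t z ∧
    |deriv (deriv (EJ κ r t)) z| ≤ 12 / z ^ 2 * EJ κ r t z ∧
    hJ κ r t z ≤ (z / (3 * t)) ^ κ ∧ (r * z ≤ t → (z / (4 * t)) ^ κ ≤ hJ κ r t z)

/-- **JZ (0.5 h).** Existence of the global coordinate.
PROOF.  `g(x) = x * Real.smoothTransition (2 - x)`: smooth, `= x` for `x <= 1`, `= 0` for `x >= 2`, `g <= 2`,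
`g' = 1` for `x < 1`, `0` for `x > 2`, bounded on the compact `[1,2]`, hence `|g'| <= D`; all derivatives of order
`k >= 1` are bounded (constant outside a compact set). `z = A - g` with `A = 102 + 10 (D + 1)`. -/
def S_JZ : Prop := ∃ (z : ℝ → ℝ) (A : ℝ), IsZ z A

/-- **CUT (1.5 h).** The cut-off. Hypotheses allowed: `S_WT0`, `S_WTF`, `S_SCL`.
PROOF.  `d = Ψ(φ)`, `Ψ(s) = smoothTransition(3/2 - 2s)` : `1` for `s <= 1/4`, `0` for `s >= 3/4`, antitone, with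
derivatives bounded on `[0,1]`; `Ψ(1/2) = smoothTransition(1/2) = 1/2`. `∂_x^k φ = O(λ^{-k})` (`S_WTF` formulas,
`ph1, ph2, ph3 <= 1`), so `|∂_x^k d| <= C λ^{-k}` by the chain rule (`λ <= 1`), and off `nearS`, `φ < 1/4` or
`φ > 3/4` in a neighbourhood of `x` (continuity), so `d` is locally constant. On `nearS`:
`ρ e^{-y/K} ∈ [1/3,3]`, so `|y| <= K (log(1/ρ) + 2)` and `x = σ+λy >= -λK(log(1/ρ)+2) >= -1` for `t <= T0`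
(`λ <= ρ`, `ρ log(1/ρ) → 0`), and `y <= 0` if `ρ <= 1/3`, so `x <= σ <= 1/4`. `x <= -1` gives `φ <= 1/4`, `x >= 1/2 > σ` gives
`φ > 3/4` for `ρ` small. `|pWt| <= λ^{-3} ph1 (1 + 3ρ|y| + 2Kρ) <= C λ^{-3}` on `nearS`, and `pWt <= 0` there (as
`3ρ|y| <= 1/2` for small `T0`). `∂_x φ > 0` and `Ψ' <= 0` give the signs. `BInf`: chain rule from `BInf pW pWt` (`S_WTF`):
`iteratedDeriv k` of `Ψ∘pW` is a polynomial in `iteratedDeriv j pW` (`1 <= j <= k`) and `Ψ^(i)(pW)` (Faa di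
Bruno by induction), the `Ψ^(i)` are continuous and bounded on `[0,1]`. -/
def S_CUT : Prop :=
  ∀ α K : ℝ, 0 < α → α < 1 → 1 ≤ K → ∃ C T0 : ℝ, 0 < C ∧ 0 < T0 ∧ T0 ≤ 1 ∧ (4 * α + 3) * T0 ≤ 1 ∧
    (∀ t, 0 < t → t ≤ T0 → sig α t ≤ 1 / 4 ∧
      (∀ x, 0 ≤ dJ α K t x ∧ dJ α K t x ≤ 1) ∧ (∀ x, x ≤ -1 → pW α K t x < 1 / 4) ∧
      (∀ x, 1 / 2 ≤ x → 3 / 4 < pW α K t x) ∧
      (∀ x, pW α K t x ≤ 1 / 4 → dJ α K t x = 1) ∧ (∀ x, 3 / 4 ≤ pW α K t x → dJ α K t x = 0) ∧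
      (∀ x, pW α K t x ≤ 1 / 2 → 1 / 2 ≤ dJ α K t x) ∧
      (∀ x ∈ nearS α K t, -1 ≤ x ∧ x ≤ sig α t) ∧ MeasurableSet (nearS α K t) ∧
      (∀ k : ℕ, 1 ≤ k → k ≤ 3 → ∀ x, |iteratedDeriv k (dJ α K t) x| ≤ C / lam α t ^ k * ind α K t x ∧
        |iteratedDeriv k (cJ α K t) x| ≤ C / lam α t ^ k * ind α K t x) ∧
      (∀ x, |cJt α K t x| ≤ C / lam α t ^ 3 * ind α K t x ∧ 0 ≤ cJt α K t x ∧
        deriv (cJ α K t) x ≤ 0) ∧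
      (∀ x, dJ α K t x ^ 2 ≤ cJ α K t x + ind α K t x)) ∧
    (∀ t1 t2, 0 < t1 → t1 ≤ t2 → t2 ≤ T0 →
      BInf (dJ α K) (dJt α K) t1 t2 ∧ BInf (cJ α K) (cJt α K) t1 t2)

/-- **JFLD (2 h).** The weights of the left functional are admissible fields. Hypotheses allowed:
`S_JW`, `S_CUT`, `S_SCL`.
PROOF.  Formulas: product and chain rule, `z' = -1` for `x <= 1` and `c` vanishes in a neighbourhood of every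
`x > 1/2`. `∂_x P = -E`, `∂_x Q = R` (for `x < 1`). `p_xxx = -E_xx c - 3 E_x c_x - 3 E c_xx + P c_xxx`,
`q_xx = R_x c + 2R c_x + Q c_xx`, `q_xxx = R_xx c + 3R_x c_x + 3R c_xx + Q c_xxx`,
`(Ec)_xx = E_xx c + 2E_x c_x + E c_xx`; by `S_JW` (`z >= 100`) `|R_x| <= R`, `|R_xx| <= R`, `|E_x|, |E_xx| <= E`; on
`nearS` (`-1 <= x <= 1/4`, so `z <= A+1`): `h <= ((A+1)/(3t))^κ <= C t^{-κ}`, `P <= h`, `Q <= C t^{1-κ}`,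
`R <= Q <= C t^{1-κ}`, `E <= (2/(3t)) Q <= C t^{-κ}`; `λ <= 1`.
`BInf`: the functions `F(t,x)` in the algebra generated by `t, 1/t`, `z(x)^{-1}`, `(3t+r z(x))^{-1}`, `h`, and the
derivatives `z^(k)(x)`, `k >= 1`, are jointly continuous and bounded on `[t1,t2] × ℝ` (note `z^a s^b` with `a = κ - i`,
`b = -κ - j` is `h z^{-i} s^{-j}`; `z/s <= 1/r` gives `h` bounded, and `z·s^{-1} <= 1/r` may be used as a generator,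
`z/s = 1/r - 3t/(r s)`), and the algebra is closed under `∂_x`; so all `x`-derivatives of `P(z(x)), Q(z(x)), E(z(x))` are
bounded and jointly continuous. Products with `c` (Leibniz) are `BInf`. Time derivatives: `S_JW`; `pJt, qJt` are
bounded because `(z/t) E <= (2z/(3t^2)) Q <= (2κ/t) h` and `h <= r^{-κ}`. `(E∘z) c` is smooth with bounded derivatives. -/
def S_JFLD : Prop :=
  ∀ (α K κ A : ℝ) (z : ℝ → ℝ), 0 < α → α < 1 → 1 ≤ K → 0 < κ → κ ≤ 1 / 4 → IsZ z A →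
    ∃ C T0 : ℝ, 0 < C ∧ 0 < T0 ∧ T0 ≤ 1 ∧ (4 * α + 3) * T0 ≤ 1 ∧ ∀ r : ℝ, 0 < r →
    (∀ t1 t2, 0 < t1 → t1 ≤ t2 → t2 ≤ T0 →
      BInf (pJ α K κ r z) (pJt α K κ r z) t1 t2 ∧ BInf (qJ α K κ r z) (qJt α K κ r z) t1 t2) ∧
    ∀ t, 0 < t → t ≤ T0 →
      BI (fun x => cJ α K t x * EJ κ r t (z x)) ∧
      ∀ x,
      deriv (pJ α K κ r z t) x = -(EJ κ r t (z x) * cJ α K t x)
        + PJ κ r t (z x) * deriv (cJ α K t) x ∧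
      deriv (qJ α K κ r z t) x = RJ κ r t (z x) * cJ α K t x
        + QJ κ r t (z x) * deriv (cJ α K t) x ∧
      |iteratedDeriv 3 (pJ α K κ r z t) x| ≤ C * (EJ κ r t (z x) * cJ α K t x)
        + C * t ^ (-κ) / lam α t ^ 3 * ind α K t x ∧
      |iteratedDeriv 2 (qJ α K κ r z t) x| ≤ RJ κ r t (z x) * cJ α K t x
        + C * t ^ (1 - κ) / lam α t ^ 2 * ind α K t x ∧
      |iteratedDeriv 3 (qJ α K κ r z t) x| ≤ C * (RJ κ r t (z x) * cJ α K t x)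
        + C * t ^ (1 - κ) / lam α t ^ 3 * ind α K t x ∧
      |iteratedDeriv 2 (fun x => cJ α K t x * EJ κ r t (z x)) x| ≤
        C * (EJ κ r t (z x) * cJ α K t x) + C * t ^ (-κ) / lam α t ^ 2 * ind α K t x ∧
      (x ∈ nearS α K t → hJ κ r t (z x) ≤ C * t ^ (-κ) ∧ PJ κ r t (z x) ≤ C * t ^ (-κ) ∧
        QJ κ r t (z x) ≤ C * t ^ (1 - κ) ∧ RJ κ r t (z x) ≤ C * t ^ (1 - κ) ∧
        EJ κ r t (z x) ≤ C * t ^ (-κ))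

/-- **JWGN (2 h).** Nonlinear absorption. Hypotheses allowed: `S_JW`, `S_CUT`, `S_JFLD`, `S_SCL`, `S_WGN`.
PROOF.  `f = d w` (so `f^10 = c w^10`), `N = ∫f^2 = Nd`. `|d_x| <= C/λ 1_n`, `|d_xx| <= C/λ^2 1_n`, `d^2 <= c + 1_n`,
`c <= 1`. S_WGN with the weights `ω = R(z(x)), E(z(x)), Q(z(x))`, which satisfy `|ω'| <= ω` because
`|∂_z ω| <= (3/z) ω` (for `Q`: `R <= (2/z)Q`) and `|z'| <= z/10`; they are bounded and `C^1`.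
(1) `∫cRw^10 = ∫R f^10 <= 256 N^4 ∫R(f''^2+f^2)`, `f''^2 <= 3(d^2 w_xx^2 + 4 d_x^2 w_x^2 + d_xx^2 w^2)`,
`R d^2 w_xx^2 <= R c w_xx^2 + R 1_n w_xx^2`, `w_xx^2 <= 2(w_xx+ηw)^2 + 2η^2 w^2`,
`Rη^2 = z E/(3t) ... <= (z/(3t)) (2/(3t)) Q <= (2κ/(3t)) h`. In the near region `R <= C t^{1-κ}`:
`t^{1-κ}(w_xx^2 + λ^{-2} w_x^2 + λ^{-4} w^2) = t^{-κ} t λ^{-4} (λ^4 w_xx^2 + λ^2 w_x^2 + w^2) <= t^{-κ} λ^{-3} nrI` as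
`t <= λ^2 <= λ`. `R f^2 <= R c w^2 + R 1_n w^2`, `R <= h`.
(2) `∫cEw^6 = ∫E d^4 f^6 <= ∫ E f^6 <= 8N^2 ∫E(f'^2+f^2)`, `f'^2 <= 2 d^2w_x^2 + 2d_x^2 w^2`, `E <= (2/(3t)) Q`, `E <= h`
(`E <= (2/(3t))·(3κt/z) h`); near: `E(w_x^2 + λ^{-2}w^2) <= C t^{-κ} λ^{-2}(λ^2w_x^2 + w^2)`.
(3) the same with `Q`: near `t^{1-κ}(w_x^2+λ^{-2}w^2) <= t^{-κ}(t/λ^2)(λ^2w_x^2+w^2)`. -/
def S_JWGN : Prop :=
  ∀ (α K κ A : ℝ) (z : ℝ → ℝ), 0 < α → α < 1 → 1 ≤ K → 0 < κ → κ ≤ 1 / 4 → IsZ z A →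
    ∃ C T0 : ℝ, 0 < C ∧ 0 < T0 ∧ T0 ≤ 1 ∧ ∀ r t : ℝ, 0 < r → 0 < t → t ≤ T0 →
    ∀ w : ℝ → ℝ, HI w →
      (Integrable (fun x => cJ α K t x * RJ κ r t (z x) * w x ^ 10) ∧
        (∫ x, cJ α K t x * RJ κ r t (z x) * w x ^ 10) ≤ C * Nd α K t w ^ 4 *
          (XJ α K κ r z t w + 1 / t * Hc α K κ r z t w + t ^ (-κ) / lam α t ^ 3 * NRf α K t w)) ∧
      (Integrable (fun x => cJ α K t x * EJ κ r t (z x) * w x ^ 6) ∧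
        (∫ x, cJ α K t x * EJ κ r t (z x) * w x ^ 6) ≤ C * Nd α K t w ^ 2 *
          (1 / t * Qc α K κ r z t w + Hc α K κ r z t w
            + t ^ (-κ) / lam α t ^ 3 * NRf α K t w)) ∧
      (Integrable (fun x => cJ α K t x * QJ κ r t (z x) * w x ^ 6) ∧
        (∫ x, cJ α K t x * QJ κ r t (z x) * w x ^ 6) ≤ C * Nd α K t w ^ 2 *
          (Qc α K κ r z t w + Hc α K κ r z t w + t ^ (-κ) * NR0f α K t w))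

/-- **JPT (2 h).** The pointwise inequality for the integrand. Hypotheses allowed: `S_JW`, `S_CUT`, `S_JFLD`,
`S_SCL`, `S_ALG`.
PROOF.  Write `p1 = -Ec + Pc'`, `q1 = Rc + Qc'` (`c' = ∂_x c`), `pt = -3ηEc + P c_t`, `qt = 3Ec + Q c_t`, `E = ηR`. Quadratic part
of `tInt`: `-3q1 w2^2 - 3p1 w1^2 + pt w^2 + qt w1^2 + q3 w1^2 + p3 w^2`. Its `c`-part without `p3, q3` is
`-3Rc w2^2 + 6Ec w1^2 - 3ηEc w^2 = -3Rc (w2+ηw)^2 + 6Ec(w w2 + w1^2)` (ring, `E = ηR`). Everything else is bounded: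
`|q3| w1^2 <= C R c w1^2 + near`, `R <= Q`; `|p3| w^2 <= C E c w^2 + near`, `E <= h`; near: (with `t <= λ^2`)
`t^{1-κ}λ^{-1} w2^2`, `t^{-κ}λ^{-1}w1^2`, `t^{1-κ}λ^{-3} w1^2`, `t^{-κ}λ^{-3} w^2` are all `<= t^{-κ}λ^{-3} nrI`.
Nonlinear (`G = nG g w` etc., `S_ALG`, `|g| <= 1`; on the near region `g = 0` since `x >= -1`, so `G = w^5`):
`|-p1 GG/3 + 2 p1 G w| <= 100 |p1| (g^4 w^2 + w^6) <= 100 Ec(w^2 + w^6) + C t^{-κ}λ^{-1} 1_n w^6`;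
`|2 p g_x G2| <= 80 h c |g_x|(|g|^3w^2 + |w|^5) <= 80 h c w^2 + 80 h c |g_x||w|^5`;
`4Rc|G||w2| <= 4Rc|G||w2+ηw| + 4Ec|Gw| <= (1/2)Rc(w2+ηw)^2 + 8RcG^2 + 160Ec(w^2+w^6)`, `G^2 <= 3200(w^2+w^10)`;
`2|q2||G||w1| <= Rc(G^2+w1^2) + near`; `-q1 G^2 <= Q|c'| w^10` on the near region; `|qt GG/3| <= 60Ec(w^2+w^6) +
20 Q|c_t| w^6`; `|2 q G2 g_t| <= 80 Q c |g_t| (|g|^3 w^2 + |w|^5) <= 240κ(t/z) h c (w^2 + |g_t||w|^5)`.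
Near nonlinear terms: `w^6 <= λ^{-2}w^2 + λ^2w^10`, `|w|^5|w2| <= w^10 + w2^2`, `|w|^5|w1| <= λ w^10 + λ^{-1} w1^2`:
`t^{1-κ}λ^{-1}(w^10+w2^2)`, `t^{1-κ}λ^{-2}|w|^5|w1|`, `t^{-κ}λ^{-1}w^6`, `t^{1-κ}λ^{-3}w^6` are `<= C t^{-κ}λ^{-3} nrI`.
Source: `2|pSw + qS1w1 - qSG| <= 2hc|S||w| + 2Qc|S1||w1| + 80Qc|S|(|w|+|w|^5)`. -/
def S_JPT : Prop :=
  ∀ (α K κ A : ℝ) (z : ℝ → ℝ), 0 < α → α < 1 → 1 ≤ K → 0 < κ → κ ≤ 1 / 4 → IsZ z A →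
    ∃ C T0 : ℝ, 0 < C ∧ 0 < T0 ∧ T0 ≤ 1 ∧ ∀ r t : ℝ, 0 < r → 0 < t → t ≤ T0 →
    ∀ g gt w wt : ℝ → ℝ → ℝ, (∀ x, -1 ≤ x → g t x = 0) →
      (∀ x, |g t x| ≤ 1 ∧ |g t x| ^ 3 * |deriv (g t) x| ≤ 1 ∧ |g t x| ^ 3 * |gt t x| ≤ 1) →
      ∀ x, tInt (pJ α K κ r z) (pJt α K κ r z) (qJ α K κ r z) (qJt α K κ r z) g gt w wt t x ≤
        -(5 / 2) * (cJ α K t x * RJ κ r t (z x) *
            (iteratedDeriv 2 (w t) x + z x / (3 * t) * w t x) ^ 2)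
        + 6 * (cJ α K t x * EJ κ r t (z x) *
            (w t x * iteratedDeriv 2 (w t) x + deriv (w t) x ^ 2))
        + C * (cJ α K t x * (hJ κ r t (z x) * w t x ^ 2 + QJ κ r t (z x) * deriv (w t) x ^ 2))
        + C * (cJ α K t x * EJ κ r t (z x) * w t x ^ 6)
        + C * (cJ α K t x * RJ κ r t (z x) * w t x ^ 10)
        + C * (t ^ (-κ) / lam α t ^ 3 * (ind α K t x * nrI α t (w t) x))
        + C * (cJ α K t x * hJ κ r t (z x) *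
            ((|deriv (g t) x| + t / z x * |gt t x|) * |w t x| ^ 5))
        + C * (cJ α K t x * (hJ κ r t (z x) * (|srcS g w wt t x| * |w t x|)
            + QJ κ r t (z x) * (|deriv (srcS g w wt t) x| * |deriv (w t) x|)
            + QJ κ r t (z x) * (|srcS g w wt t x| * |w t x| ^ 5)))

/-- **JINEQ (1.5 h).** The integrated inequality at a fixed time. Hypotheses allowed: `S_JW`, `S_CUT`,
`S_JFLD`, `S_JWGN`, `S_JPT`, `S_SCL`.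
PROOF.  Integrate `S_JPT` over `x`. `6∫cE(w w_xx + w_x^2) = 6∫cE (w w_x)_x = 3∫(cE)_xx w^2 <= C∫cEw^2 + C t^{-κ}λ^{-2}∫1_n w^2`
(integration by parts, `BI (cE)`), `E <= h`. The terms with `w^6`, `w^10` by `S_JWGN`; if `C Nd <= 1` with `C` large, the `XJ` term is
`<= XJ` and `Nd^4 <= Nd^2`. Integrability of the right side: bounded weights times products of `L2`
functions (`w` bounded). -/
def S_JINEQ : Prop :=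
  ∀ (α K κ A : ℝ) (z : ℝ → ℝ), 0 < α → α < 1 → 1 ≤ K → 0 < κ → κ ≤ 1 / 4 → IsZ z A →
    ∃ C T0 : ℝ, 1 ≤ C ∧ 0 < T0 ∧ T0 ≤ 1 ∧ ∀ r t : ℝ, 0 < r → 0 < t → t ≤ T0 →
    ∀ g gt w wt : ℝ → ℝ → ℝ, (∀ x, -1 ≤ x → g t x = 0) →
      (∀ x, |g t x| ≤ 1 ∧ |g t x| ^ 3 * |deriv (g t) x| ≤ 1 ∧ |g t x| ^ 3 * |gt t x| ≤ 1) →
      HI (g t) → HI (gt t) → HI (w t) → HI (srcS g w wt t) →
      Integrable (tInt (pJ α K κ r z) (pJt α K κ r z) (qJ α K κ r z) (qJt α K κ r z) g gt w wt t) →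
      C * Nd α K t (w t) ≤ 1 →
      (∫ x, tInt (pJ α K κ r z) (pJt α K κ r z) (qJ α K κ r z) (qJt α K κ r z) g gt w wt t x) ≤
        -XJ α K κ r z t (w t)
        + C * ((1 + Nd α K t (w t) ^ 2 / t) * (Hc α K κ r z t (w t) + Qc α K κ r z t (w t)))
        + C * (t ^ (-κ) / lam α t ^ 3 * NRf α K t (w t))
        + C * (∫ x, cJ α K t x * hJ κ r t (z x) *
            ((|deriv (g t) x| + t / z x * |gt t x|) * |w t x| ^ 5))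
        + C * (∫ x, cJ α K t x * (hJ κ r t (z x) * (|srcS g w wt t x| * |w t x|)
            + QJ κ r t (z x) * (|deriv (srcS g w wt t) x| * |deriv (w t) x|)
            + QJ κ r t (z x) * (|srcS g w wt t x| * |w t x| ^ 5)))

/-- **KINEQ (2 h).** The Kato inequality for one packet, at a fixed time, and the admissibility of the weight.
Hypotheses allowed: `S_WT0`, `S_CUT`, `S_SCL`, `S_ALG`, `S_WGN`.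
PROOF.  `a = aK`, `b = bK`: `a' = -b`, `0 < b <= a/L`, `|b'| <= b/L`, `|b''| <= b/L^2`, `L >= 1`, `0 < a < 1`, and `a <= s` on the near region
(`x >= -1`) with `s = exp(-(X-1)/L)` (`a = 1/(1+e^{(x+X)/L})`). `p = a c`: `p1 = -bc + a c'`,
`|p3| <= a c + C s λ^{-3} 1_n`, `pt = a c_t >= 0`. With `q = 0`:
`tInt = -3p1w1^2 + p3w^2 - p1GG/3 - 2p g_x G2 + 2p1Gw + 2pSw + pt w^2`
`>= 3bc w1^2 - a c w^2 - Csλ^{-3}1_n w^2 - 100(bc + a|c'|)(g^4w^2+w^6) - 80 a c|g_x|(|g|^3w^2+|w|^5) - 2ac|S||w|`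
(`-3ac'w1^2 >= 0` because `c' <= 0`). Near: `s λ^{-1} w^6 <= sλ^{-3}(w^2 + λ^4 w^10)`. `∫bcw^6 <= ∫b f^6` (`f = dw`)
`<= 8Nd^2∫b(f'^2+f^2)` (S_WGN with weight `b`), `f'^2 <= 2d^2w1^2 + 2d_x^2w^2`, `d^2 <= c + 1_n`, `b <= a`:
`<= C Nd^2 (∫bcw1^2 + ∫acw^2 + sλ^{-3} NRf)`, absorbed if `C Nd <= 1`. Integrate (`tInt` is integrable by hypothesis).
`BInf (pK) (pKt)`: product of the time independent smooth bounded function `a` and `cJ`. -/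
def S_KINEQ : Prop :=
  ∀ α K : ℝ, 0 < α → α < 1 → 1 ≤ K → ∃ C T0 : ℝ, 1 ≤ C ∧ 0 < T0 ∧ T0 ≤ 1 ∧
    ∀ X L : ℝ, 1 ≤ X → 1 ≤ L →
    (∀ t1 t2, 0 < t1 → t1 ≤ t2 → t2 ≤ T0 → BInf (pK α K X L) (pKt α K X L) t1 t2) ∧
    ∀ t : ℝ, 0 < t → t ≤ T0 →
    ∀ g gt w wt : ℝ → ℝ → ℝ, (∀ x, -1 ≤ x → g t x = 0) →
      (∀ x, |g t x| ≤ 1 ∧ |g t x| ^ 3 * |deriv (g t) x| ≤ 1) →
      HI (g t) → HI (w t) → HI (srcS g w wt t) →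
      Integrable (tInt (pK α K X L) (pKt α K X L) zF zF g gt w wt t) →
      C * Nd α K t (w t) ≤ 1 →
      2 * Bk α K X L t (w t) ≤ (∫ x, tInt (pK α K X L) (pKt α K X L) zF zF g gt w wt t x)
        + C * (∫ x, aK X L x * cJ α K t x * w t x ^ 2)
        + C * (Real.exp (-((X - 1) / L)) / lam α t ^ 3 * NRf α K t (w t))
        + C * (∫ x, aK X L x * cJ α K t x * (|deriv (g t) x| * |w t x| ^ 5))
        + 2 * (∫ x, aK X L x * cJ α K t x * (|srcS g w wt t x| * |w t x|))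

/-- **NEARB (1.2 h).** The transition region is controlled by the bootstrap near the soliton. Hypotheses allowed:
`S_WT0`, `S_SCL`, `S_CUT`.
(The relation `ŵ = V + e` is needed, and assumed, only for `x = σ+λy >= -2`; `nearS` is contained in `x >= -1`, so it
may be differentiated there.)
PROOF.  Change variables `x = σ+λy`: with `ŵ = inn w`, `λ^4 w_xx^2 dx = ŵ_yy^2 dy`, `λ^2w_x^2dx = ŵ_y^2dy`, `w^2dx = ŵ^2dy`,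
`λ^4w^10dx = ŵ^10dy`; `nearS` becomes `I = {1/4 <= wt K ρ y <= 3/4}`, an interval of length `K log 9 >= 1`.
`ŵ = V + e`, `ŵ^2 <= 2V^2 + 2e^2` etc.; `∫_I V^2 <= |I| CV^2ρ^2`. On `I`: `ph1 = φ(1-φ)/K >= 3/(16K)` and `φ >= 1/4`, so
`∫_I (e_yy^2+e_y^2+e^2) <= (16K/3) Dn` and `∫_I(e_y^2+e^2) <= 4Hn`. `sup_I e^2 <= 2∫_I(e^2+e_y^2) <= 8 Hn <= 8` (interval of length
`>= 1`), `ŵ^10 <= 2^9(V^10+e^10)`, `|V| <= CVρ <= CV`, `∫_I e^10 <= 8^4 ∫_I e^2`. -/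
def S_NEARB : Prop :=
  ∀ α K CV : ℝ, 0 < α → α < 1 → 1 ≤ K → 1 ≤ CV → ∃ C T0 : ℝ, 0 < C ∧ 0 < T0 ∧ T0 ≤ 1 ∧
    ∀ t : ℝ, 0 < t → t ≤ T0 → ∀ w V e : ℝ → ℝ, HI w → HI e → ContDiff ℝ (⊤ : ℕ∞) V →
      (∀ y, -2 ≤ sig α t + lam α t * y →
        Real.sqrt (lam α t) * w (sig α t + lam α t * y) = V y + e y) →
      (∀ y, 1 / 4 ≤ wt K (rho α t) y → wt K (rho α t) y ≤ 3 / 4 →
        |V y| ≤ CV * rho α t ∧ |deriv V y| ≤ CV * rho α t ∧ |deriv (deriv V) y| ≤ CV * rho α t) →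
      Hn K (rho α t) e ≤ 1 →
      NRf α K t w ≤ C * (rho α t ^ 2 + Dn K (rho α t) e) ∧
      NR0f α K t w ≤ C * (rho α t ^ 2 + Hn K (rho α t) e)

/-- **P5 (0.7 h).** `L^5` on an interval.
PROOF.  `m = ∫_I w^2`, `e = ∫_I w'^2`, `|I| = 2L`. For `x, y ∈ I`: `w(x)^2 <= w(y)^2 + 2∫_I|ww'| <= w(y)^2 + 2√(me)`; average in `y`:
`w(x)^2 <= m/(2L) + 2√(me) <= 3√m √(e + m/L^2)`. So `|w|^5 <= w^2 (3√m√(e+m/L^2))^{3/2}`, integrate: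
`<= 3^{3/2} m^{7/4}(e+m/L^2)^{3/4}`, `3^{3/2} <= 6`. -/
def S_P5 : Prop :=
  ∀ (w : ℝ → ℝ) (a L : ℝ), ContDiff ℝ 1 w → 0 < L →
    (∫ x in Icc (a - L) (a + L), |w x| ^ 5) ≤
      6 * (∫ x in Icc (a - L) (a + L), w x ^ 2) ^ ((7 : ℝ) / 4) *
        ((∫ x in Icc (a - L) (a + L), deriv w x ^ 2) +
          (∫ x in Icc (a - L) (a + L), w x ^ 2) / L ^ 2) ^ ((3 : ℝ) / 4)

/-- **PKQ (2 h).** Facts on the packets. Hypothesis allowed: `Helper25.KV.H_GP1` (elementary facts on `bmp`).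
PROOF.  `pk 10 (10q) j t x = B cos θ / 2^{11j}`, `B = bmp((x+X)/L)`, `θ = 2^j x + 8^j t`, `X = Xq q j`, `L = Lq j = 2^{20j}`; note
`2^j * 2^{10j} = 2^{11j}`. Supports in `Iq q j` with all derivatives (closed set; outside it `B = 0` in a neighbourhood or at the
endpoints by continuity of derivatives). `Lq j <= Xq q j/4`, `Xq q (j+1) >= 4 Xq q j` give disjointness and `(3/4)Xq >= 3`.
`|g| <= 2^{-11j}`; `g_x = (B' cos θ/L - 2^j B sin θ)/2^{11j}`; `g_t = -8^j B sin θ/2^{11j}` (`8^j/2^{11j} = 2^{-8j}`);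
`g_t + g_xxx = [B''' cos θ/L^3 - 3B''2^j sin θ/L^2 - 3B'4^j cos θ/L]/2^{11j}` (the `8^j` terms cancel), of size
`C 4^j 2^{-20j} 2^{-11j} = C2^{-29j}`; `(g^5)_x = 5g^4g_x` of size `C 2^{-44j}2^{-10j}`; one more derivative costs `C2^j`.
On `Iq q j` only the `j`-th packet is nonzero. `HInf`: smooth, compact support, jointly continuous. `HasTimeDeriv`: mixed partial
derivatives of `B(x) cos(2^jx+8^jt)` (explicit). Last item: `u_t = -deriv (flux u) = -(u_xxx + (u^5)_x)`, linearity. -/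
def S_PKQ : Prop :=
  ∃ C : ℝ, 1 ≤ C ∧ ∀ q k0 n : ℕ, 2 ≤ q →
    (∀ j, 1 ≤ Lq j ∧ Lq j ≤ Xq q j / 4 ∧ 4 * Xq q j ≤ Xq q (j + 1) ∧
      ∀ x ∈ Iq q j, -(5 / 4 * Xq q j) ≤ x ∧ x ≤ -(3 / 4 * Xq q j) ∧ x ≤ -3) ∧
    (∀ t x, (∀ j ∈ Finset.Ico k0 (k0 + n), x ∉ Iq q j) →
      gq q k0 n t x = 0 ∧ deriv (gq q k0 n t) x = 0 ∧ gqt q k0 n t x = 0 ∧ Sq q k0 n t x = 0 ∧
        deriv (Sq q k0 n t) x = 0) ∧
    (∀ t x, ∀ j ∈ Finset.Ico k0 (k0 + n), x ∈ Iq q j →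
      |gq q k0 n t x| ≤ 1 / 2 ^ (11 * j) ∧ |deriv (gq q k0 n t) x| ≤ C / 2 ^ (10 * j) ∧
      |gqt q k0 n t x| ≤ 1 / 2 ^ (8 * j) ∧ |Sq q k0 n t x| ≤ C / 2 ^ (29 * j) ∧
      |deriv (Sq q k0 n t) x| ≤ C / 2 ^ (28 * j)) ∧
    (∀ t1 t2, t1 ≤ t2 → HInf (gq q k0 n) t1 t2 ∧ HInf (gqt q k0 n) t1 t2 ∧
      HasTimeDeriv (gq q k0 n) (gqt q k0 n) t1 t2) ∧
    (∀ t, HI (gq q k0 n t) ∧ HI (gqt q k0 n t) ∧ HI (Sq q k0 n t)) ∧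
    (∀ (u : ℝ → ℝ → ℝ) (t1 t2 : ℝ), SmoothSol u t1 t2 → ∀ t ∈ Icc t1 t2, ∀ x,
      srcS (gq q k0 n) (fun t x => u t x - gq q k0 n t x)
        (fun t x => -deriv (flux (u t)) x - gqt q k0 n t x) t x = Sq q k0 n t x)

/-- **XJ1 (2 h).** Packet terms at a fixed time. Hypotheses allowed: `S_PKQ`, `S_P5`, `S_JW`, `S_CUT`, `S_WT0`, `S_SCL`.
PROOF.  `κ = kq q`, `g = gq`, `X_j^κ = 4^κ 4^{2j}`: `2^{4j} <= X_j^κ <= 2·2^{4j}`. On `Iq q j` (`x <= -3`): `c = 1`,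
`(3/4)X_j <= z <= A + (5/4)X_j <= C X_j` and `r z <= t`, so `h >= (z/(4t))^κ >= c0 t^{-κ}2^{4j}` and `h <= (z/(3t))^κ <= C t^{-κ}2^{4j}`.
Hence `m_j := ∫_{I_j}w^2 <= C t^κ 2^{-4j} Hc <= C t^κ 2^{-4j}`; `b_j >= (1/6)/L_j` on `I_j` (`|(x+X)/L| <= 1`, `e/(1+e)^2 >= 1/6`), so
`e_j := ∫_{I_j} w_x^2 <= 6·2^{20j} B_j`. S_P5 with `L = 2^{20j}`:
`∫_{I_j}|w|^5 <= C (t^κ2^{-4j})^{7/4} (2^{20j}B_j + 2^{-44j})^{3/4} <= C t^{7κ/4}(2^{8j}B_j^{3/4} + 2^{-40j})` (`t <= 1`,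
`(a+b)^{3/4} <= a^{3/4}+b^{3/4}`).
(1) `h (|g_x| + (t/z)|g_t|) <= C t^{-κ}2^{4j}(2^{-10j} + 2^{-8j}/X_j) <= C t^{-κ} 2^{-6j}` (`X_j >= 2^{2j}`), so the first integral is
`<= C Σ t^{3κ/4}(2^{2j}B_j^{3/4} + 2^{-46j})`.
(2) `∫_{I_j} h|S||w| <= C t^{-κ}2^{4j} (∫_{I_j}S^2)^{1/2} m_j^{1/2}`, `∫_{I_j}S^2 <= C2^{-58j}2^{20j}`:
`<= C t^{-κ/2} 2^{4j-19j-2j}`. `∫ Q|S_x||w_x| <= (∫_{I_j}Q S_x^2)^{1/2} Qc^{1/2}`, `Q <= h`: `<= C t^{-κ/2}2^{2j-18j}`.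
`Q|S||w|^5 <= C h 2^{-29j}|w|^5` as in (1).
(3) Kato terms: on `I_j`, `j >= k`: `a <= 1`; `j < k`: `a_k <= exp(-(x+X_k)/L_k) <= exp(-X_k/(2L_k)) <= 2L_k/X_k <= 2^{-20k}`
(`x >= -(5/4)X_j >= -X_k/2`, `X_k/L_k = 4·4^{10(q-1)k} >= 4·2^{20k}`, `e^{-s} <= 1/s`). `∫_{I_j}|g_x||w|^5 <= C 2^{-10j}(2^{8j}B_j^{3/4}+2^{-40j})`;
`∫_{I_j}|S||w| <= C2^{-21j}`.
(4) `∫ a_k c w^2`: on `x <= -X_k/2`, `h >= (X_k/(8t))^κ` (`h` increasing in `z`, and `r(X_k/2) <= t`), so that part is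
`<= C t^κ 2^{-4k} Hc`; on `x >= -X_k/2`, `a_k <= 2^{-20k}` and `c w^2 <= t^κ c h w^2` (`h >= h(100) >= (25/t)^κ >= t^{-κ}`, `100 r <= t`).
(5) `Nd <= ∫c w^2 + ∫1_n w^2 <= t^κ Hc + NR0f`. -/
def S_XJ1 : Prop :=
  ∀ (α K A : ℝ) (z : ℝ → ℝ) (q : ℕ), 0 < α → α < 1 → 1 ≤ K → 2 ≤ q → IsZ z A →
    ∃ C T0 : ℝ, 1 ≤ C ∧ 0 < T0 ∧ T0 ≤ 1 ∧ ∀ (k0 n : ℕ) (r t : ℝ), 0 < r → 0 < t → t ≤ T0 →
    r * (A + 2 * Xq q (k0 + n) + 100) ≤ t → ∀ w : ℝ → ℝ, HI w →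
    Hc α K (kq q) r z t w + Qc α K (kq q) r z t w ≤ 2 →
      (∫ x, cJ α K t x * hJ (kq q) r t (z x) *
          ((|deriv (gq q k0 n t) x| + t / z x * |gqt q k0 n t x|) * |w x| ^ 5)) ≤
        C * (∑ j ∈ Finset.Ico k0 (k0 + n),
          (2 ^ (2 * j) * Bk α K (Xq q j) (Lq j) t w ^ ((3 : ℝ) / 4) + 1 / 2 ^ (15 * j))) ∧
      (∫ x, cJ α K t x * (hJ (kq q) r t (z x) * (|Sq q k0 n t x| * |w x|)
            + QJ (kq q) r t (z x) * (|deriv (Sq q k0 n t) x| * |deriv w x|)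
            + QJ (kq q) r t (z x) * (|Sq q k0 n t x| * |w x| ^ 5))) ≤
        C * (∑ j ∈ Finset.Ico k0 (k0 + n), (t ^ (-(kq q)) * (1 / 2 ^ (15 * j))
          + 2 ^ (2 * j) * Bk α K (Xq q j) (Lq j) t w ^ ((3 : ℝ) / 4))) ∧
      (∀ k ∈ Finset.Ico k0 (k0 + n),
        (∫ x, aK (Xq q k) (Lq k) x * cJ α K t x * (|deriv (gq q k0 n t) x| * |w x| ^ 5)) +
          (∫ x, aK (Xq q k) (Lq k) x * cJ α K t x * (|Sq q k0 n t x| * |w x|)) ≤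
          C * (1 / 2 ^ (15 * k) + (∑ j ∈ Finset.Ico k (k0 + n),
              1 / 2 ^ (2 * j) * Bk α K (Xq q j) (Lq j) t w ^ ((3 : ℝ) / 4))
            + 1 / 2 ^ (20 * k) * ∑ j ∈ Finset.Ico k0 k,
              1 / 2 ^ (2 * j) * Bk α K (Xq q j) (Lq j) t w ^ ((3 : ℝ) / 4)) ∧
        (∫ x, aK (Xq q k) (Lq k) x * cJ α K t x * w x ^ 2) ≤ C * (t ^ (kq q) / 2 ^ (4 * k)) ∧
        Real.exp (-((Xq q k - 1) / Lq k)) ≤ C / 2 ^ (20 * k)) ∧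
      Nd α K t w ≤ t ^ (kq q) * Hc α K (kq q) r z t w + NR0f α K t w

/-- **LAM (0.7 h).** A discrete inequality.
PROOF.  `Λ = max_j 2^{4j} b_j` (finite set; if empty nothing to prove), `b_j^{3/4} <= Λ^{3/4}2^{-3j}`;
`Σ_{j>=k}2^{-5j} <= 2·2^{-5k}`, `2^{-20k}Σ_j 2^{-5j} <= 2·2^{-20k}`; so `2^{4k}b_k <= C(1 + 4Λ^{3/4})`, take `k` = the maximiser:
`Λ <= C + 4CΛ^{3/4}`. If `Λ > (8C)^4 + 2C` then `4CΛ^{3/4} < Λ/2` and `C < Λ/2`, contradiction. -/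
def S_LAM : Prop :=
  ∀ C : ℝ, 0 < C → ∃ C' : ℝ, 0 < C' ∧ ∀ (k0 n : ℕ) (b : ℕ → ℝ), (∀ j, 0 ≤ b j) →
    (∀ k ∈ Finset.Ico k0 (k0 + n), b k ≤ C * (1 / 2 ^ (4 * k)
      + (∑ j ∈ Finset.Ico k (k0 + n), 1 / 2 ^ (2 * j) * b j ^ ((3 : ℝ) / 4))
      + 1 / 2 ^ (20 * k) * ∑ j ∈ Finset.Ico k0 k, 1 / 2 ^ (2 * j) * b j ^ ((3 : ℝ) / 4))) →
    ∀ k ∈ Finset.Ico k0 (k0 + n), b k ≤ C' / 2 ^ (4 * k)

/-- **DW (0.6 h).** Integration by parts in time.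
PROOF.  `F(t) = ∫_τ^t f <= ρ(t)^4 <= 7^4 t^{16κ}` (`S_SCL`), `F >= 0`, `F(τ) = 0`. `∫_τ^t s^{-κ} f = t^{-κ}F(t) + κ∫_τ^t s^{-κ-1}F(s) ds
<= C t^{15κ} + Cκ ∫_0^t s^{15κ-1} <= 2C t^{15κ} <= 2 C t^κ`. -/
def S_DW : Prop :=
  ∀ α κ : ℝ, 0 < α → α < 1 → 0 < κ → 4 * κ ≤ 2 * α / (4 * α + 3) → ∃ C : ℝ, 0 < C ∧
    ∀ (τ T : ℝ) (f : ℝ → ℝ), 0 < τ → τ ≤ T → (4 * α + 3) * T ≤ 1 → ContinuousOn f (Icc τ T) →
      (∀ t ∈ Icc τ T, 0 ≤ f t) → (∀ t ∈ Icc τ T, (∫ s in τ..t, f s) ≤ rho α t ^ 4) →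
      ∀ t ∈ Icc τ T, (∫ s in τ..t, s ^ (-κ) * f s) ≤ C * t ^ κ

/-- **CQ (1.2 h).** Continuity in time of weighted quadratic quantities.
PROOF.  Let `v_k(t) = iteratedDeriv k (w t)`. For `s <= t`: `v_k(t,x) - v_k(s,x) = ∫_s^t iteratedDeriv k (wt r) x dr`, so by Cauchy-Schwarz and
Fubini `∫ (v_k(t)-v_k(s))^2 dx <= (t-s)^2 sup_r ∫ (iteratedDeriv k (wt r))^2 <= C (t-s)^2`. `|b(t,x)-b(s,x)| <= C|t-s|` (`BInf.boundt`,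
mean value inequality). Hence `|∫b(t)v_k(t)^2 - ∫b(s)v_k(s)^2| <= ∫|b(t)-b(s)|v_k(t)^2 + C∫|v_k(t)-v_k(s)||v_k(t)+v_k(s)| <= C|t-s|`. -/
def S_CQ : Prop :=
  ∀ (t1 t2 : ℝ) (b bt w wt : ℝ → ℝ → ℝ) (k : ℕ), t1 ≤ t2 → BInf b bt t1 t2 → HInf w t1 t2 →
    HInf wt t1 t2 → HasTimeDeriv w wt t1 t2 →
    ContinuousOn (fun t => ∫ x, b t x * iteratedDeriv k (w t) x ^ 2) (Icc t1 t2)

/-- **JSTEP (2.5 h).** The bootstrap step of the left functional. Hypotheses allowed: all of `S_STAT`, `S_TIME`, `S_SCL`,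
`S_JW`, `S_CUT`, `S_JFLD`, `S_JWGN`, `S_JINEQ`, `S_KINEQ`, `S_NEARB`, `S_PKQ`, `S_XJ1`, `S_LAM`, `S_DW`, `S_CQ`, `S_ALG`.
PROOF.  `κ = kq q`, `w = u - g`, `wt = -deriv (flux u) - gqt` ; `HInf w`, `HInf wt` (`u_t` is a polynomial in derivatives of `u`),
`HasTimeDeriv w wt`; `srcS g w wt = Sq`. `e(t) = inn u t - V t`; `g = 0` for `x > -3`, so `w = u` there and `S_NEARB` applies.
Assume `Jqf <= 1` on `[τ,t]`. Then `Hc + Qc <= 2`, `Nd <= 2 s^κ + Cρ^2 <= C s^κ` at each time `s` (`XJ1`(5), `NEARB`, `ρ <= 7s^{4κ}`),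
so `C Nd <= 1` for `T0` small. KATO: integrate `KINEQ` in time over `[τ,t]` with `S_TIME` (`p = pK`, `q = 0`; `fun2 = ∫a_kc w^2`):
`2∫_τ^t B_k <= ∫a_kcw^2(t) + C∫_τ^t[2^{-4k} + 2^{-20k}λ^{-3}(ρ^2 + Dn) + (XJ1 Kato terms)]`; `∫λ^{-3}ρ^2 = ∫ρ/((4α+3)s) <= C`, `∫λ^{-3}Dn <= 1`;
`∫_τ^t B_j^{3/4} <= (∫_τ^tB_j)^{3/4}` (Hölder, `t-τ <= 1`). So `b_k = ∫_τ^tB_k` satisfies the hypothesis of `S_LAM`: `b_k <= C 2^{-4k}`.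
LEFT FUNCTIONAL: `S_TIME` with `pJ, qJ`: `J(t) - J(τ) <= ∫_τ^t [C(1 + C s^{2κ-1}) + C s^{-κ}λ^{-3}(ρ^2+Dn) + C s^{-κ}Σ2^{-15j}] ds
+ CΣ_j 2^{2j} b_j^{3/4} <= C t^{κ} + C 2^{-k0}` (`s^{-κ}λ^{-3}ρ^2 <= C s^{-κ-1+4κ}`, `S_DW`, `2^{2j}(2^{-4j})^{3/4} = 2^{-j}`).
`|J - Jqf| <= (1/3)∫qJ|GG| <= 20∫Qc(g^4w^2+w^6) <= C t Hc + C Nd^2(Qc+Hc+t^{-κ}NR0f) <= C t^κ` (`JWGN`(3), `Q <= (3κt/z)h`). So
`Jqf(t) <= Jqf(τ) + C T0^κ + C2^{-k0} <= 1/2` if `Jqf(τ) <= 1/4`, `T0` small and `k0` large. -/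
def S_JSTEP : Prop :=
  ∀ (α K CV A : ℝ) (z : ℝ → ℝ) (q : ℕ), 0 < α → α < 1 → 1 ≤ K → 1 ≤ CV → 2 ≤ q →
    4 * kq q ≤ 2 * α / (4 * α + 3) → IsZ z A →
    ∃ (C T0 : ℝ) (k00 : ℕ), 0 < C ∧ 0 < T0 ∧ T0 ≤ 1 ∧ ∀ (k0 n : ℕ) (τ T r : ℝ) (u V : ℝ → ℝ → ℝ),
    k00 ≤ k0 → 0 < τ → τ < T → T ≤ T0 → 0 < r → r * (A + 2 * Xq q (k0 + n) + 100) ≤ τ →
    SmoothSol u τ T →
    (∀ t ∈ Icc τ T, ContDiff ℝ (⊤ : ℕ∞) (V t) ∧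
      HI (fun y => inn α u t y - V t y) ∧
      (∀ y, 1 / 4 ≤ wt K (rho α t) y → wt K (rho α t) y ≤ 3 / 4 → |V t y| ≤ CV * rho α t ∧
        |deriv (V t) y| ≤ CV * rho α t ∧ |deriv (deriv (V t)) y| ≤ CV * rho α t) ∧
      Hn K (rho α t) (fun y => inn α u t y - V t y) ≤ rho α t ^ 4) →
    ContinuousOn (fun t => Dn K (rho α t) (fun y => inn α u t y - V t y)) (Icc τ T) →
    (∀ t ∈ Icc τ T, (∫ s in τ..t, Dn K (rho α s) (fun y => inn α u s y - V s y) / lam α s ^ 3)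
        ≤ rho α t ^ 4) →
    Jqf α K (kq q) r z τ (fun x => u τ x - gq q k0 n τ x) ≤ 1 / 4 →
    ContinuousOn (fun t => Jqf α K (kq q) r z t (fun x => u t x - gq q k0 n t x)) (Icc τ T) ∧
    ∀ t ∈ Icc τ T,
      (∀ s ∈ Icc τ t, Jqf α K (kq q) r z s (fun x => u s x - gq q k0 n s x) ≤ 1) →
      Jqf α K (kq q) r z t (fun x => u t x - gq q k0 n t x) ≤ 1 / 2 ∧
      Nd α K t (fun x => u t x - gq q k0 n t x) ≤ C * t ^ (kq q)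

/-- **JMAIN (1.5 h).** The conclusion for the left functional. Hypotheses allowed: `S_JSTEP`, `S_JW`, `S_CUT`, `S_SCL`,
`S_PKQ`.
PROOF.  (a) The initial value: `κ = kq q`; on the support of `c` at time `τ`, `φ <= 3/4`; `P <= h <= (z/(3τ))^κ`. By hypothesis
`w(τ,x) = u(τ,x) - g(τ,x)` vanishes for `x < -1` (see the statement), so `z <= A+1`, `h <= Cτ^{-κ}`, `Q <= Cτ^{1-κ} <= Cτ^{-κ}λ^2`, and
`Jqf(τ) <= Cτ^{-κ}∫_{φ<=3/4}(w^2+λ^2w_x^2) <= Cτ^{-κ}CV ρ^{3/2} <= C τ^{5κ} <= 1/4` (`ρ <= 7τ^{4κ}`).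
(b) Continuous induction with `S_JSTEP`: `{t : Jqf <= 1 on [τ,t]}` is closed, contains `τ`, and open in `[τ,T]` (at its points
`Jqf <= 1/2`); so `Jqf <= 1/2` on `[τ,T]` for every admissible `r` (`0 < r <= r0(τ,n)`).
(c) `r ↓ 0`: pointwise `h → (z/(3t))^κ`, `Q → κ(z/(3t))^{κ-1}` (`9κt^2/(z·3t) = 3κt/z`). Fatou (`lintegral_liminf_le`) with
`P >= (1-κ)h >= (3/4) h`: `∫c w^2(z/(3t))^κ <= (4/3)(1/2)` and `∫c w_x^2 κ(z/(3t))^{κ-1} <= 1/2`, in particular both are finite, i.e.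
integrable. -/
def S_JMAIN : Prop :=
  ∀ (α K CV A : ℝ) (z : ℝ → ℝ) (q : ℕ), 0 < α → α < 1 → 1 ≤ K → 1 ≤ CV → 2 ≤ q →
    4 * kq q ≤ 2 * α / (4 * α + 3) → IsZ z A →
    ∃ (C T0 : ℝ) (k00 : ℕ), 0 < C ∧ 0 < T0 ∧ T0 ≤ 1 ∧ ∀ (k0 n : ℕ) (τ T : ℝ) (u V : ℝ → ℝ → ℝ),
    k00 ≤ k0 → 0 < τ → τ < T → T ≤ T0 → SmoothSol u τ T →
    (∀ t ∈ Icc τ T, ContDiff ℝ (⊤ : ℕ∞) (V t) ∧
      HI (fun y => inn α u t y - V t y) ∧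
      (∀ y, 1 / 4 ≤ wt K (rho α t) y → wt K (rho α t) y ≤ 3 / 4 → |V t y| ≤ CV * rho α t ∧
        |deriv (V t) y| ≤ CV * rho α t ∧ |deriv (deriv (V t)) y| ≤ CV * rho α t) ∧
      Hn K (rho α t) (fun y => inn α u t y - V t y) ≤ rho α t ^ 4) →
    ContinuousOn (fun t => Dn K (rho α t) (fun y => inn α u t y - V t y)) (Icc τ T) →
    (∀ t ∈ Icc τ T, (∫ s in τ..t, Dn K (rho α s) (fun y => inn α u s y - V s y) / lam α s ^ 3)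
        ≤ rho α t ^ 4) →
    (∀ x, x < -1 → u τ x = gq q k0 n τ x) →
    (∫ x in {x | pW α K τ x ≤ 3 / 4}, ((u τ x - gq q k0 n τ x) ^ 2
      + lam α τ ^ 2 * deriv (fun x => u τ x - gq q k0 n τ x) x ^ 2)) ≤
        CV * rho α τ ^ ((3 : ℝ) / 2) →
    ∀ t ∈ Icc τ T,
      Nd α K t (fun x => u t x - gq q k0 n t x) ≤ C * t ^ (kq q) ∧
      Integrable (fun x => cJ α K t x * (z x / (3 * t)) ^ (kq q) * (u t x - gq q k0 n t x) ^ 2) ∧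
      (∫ x, cJ α K t x * (z x / (3 * t)) ^ (kq q) * (u t x - gq q k0 n t x) ^ 2) ≤ 1 ∧
      Integrable (fun x => cJ α K t x * (z x / (3 * t)) ^ (kq q - 1) *
        deriv (fun x => u t x - gq q k0 n t x) x ^ 2) ∧
      (∫ x, cJ α K t x * (z x / (3 * t)) ^ (kq q - 1) *
        deriv (fun x => u t x - gq q k0 n t x) x ^ 2) ≤ 1 / kq q

/-- **RIGHT (1.2 h).** The weight on the right side. Hypotheses allowed: `S_TIME`.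
PROOF.  For `R >= 1` let `ψ(x) = χ(x) R tanh(x/R)`, `χ(x) = smoothTransition(4x-2)` (`0` for `x <= 1/2`, `1` for `x >= 3/4`): smooth,
nondecreasing, all derivatives bounded, `|ψ'|, |ψ'''| <= C0` with `C0` independent of `R >= 1` (`R tanh(x/R)` has derivative `<= 1`, higher
derivatives `<= C/R`; on `[1/2,3/4]` everything is bounded), `0 <= ψ <= x` for `x >= 1/2`, supported in `x >= 1/2`. `S_TIME` with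
`p = ψ` (time independent), `q = 0`, `U = 0`, `e = u`, `et = -deriv (flux u)` (`srcS = 0`):
`∫ψu(t)^2 = ∫ψu(τ)^2 + ∫_τ^t∫(-3ψ'u_x^2 + ψ'''u^2 + (5/3)ψ'u^6)` (`tInt = -3p1 e1^2 + p3 e^2 - p1 e^6/3 + 2p1 e^6`), and
`-3ψ'u_x^2 <= 0`. On `x >= 1/2`: `sup u^2 <= 2∫_{x>=1/2}|uu_x| <= 2 C1 s^{-β/2}` at time `s`, so `∫ψ'u^6 <= C0 (2C1)^2 s^{-β} C1`,
integrable in `s` on `(0,1]` because `β < 1`. At `τ`: `u(τ,x) = 0` for `x > 1`, so `∫ψu(τ)^2 <= C1`. Let `R → ∞` (Fatou):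
`∫_{x>=1} x u(t)^2 <= C`. -/
def S_RIGHT : Prop :=
  ∀ C1 β : ℝ, 0 < C1 → 0 ≤ β → β < 1 → ∃ C : ℝ, 0 < C ∧ ∀ (u : ℝ → ℝ → ℝ) (τ T : ℝ),
    0 < τ → τ < T → T ≤ 1 → SmoothSol u τ T → (∀ x, 1 < x → u τ x = 0) →
    (∀ t ∈ Icc τ T, (∫ x in Ici (1 / 2 : ℝ), u t x ^ 2) ≤ C1 ∧
      (∫ x in Ici (1 / 2 : ℝ), deriv (u t) x ^ 2) ≤ C1 * t ^ (-β)) →
    ∀ t ∈ Icc τ T, IntegrableOn (fun x => x * u t x ^ 2) (Ici 1) ∧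
      (∫ x in Ici (1 : ℝ), x * u t x ^ 2) ≤ C

end Pool.Agent.Helper48.KV
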