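import Pool.Agent.Helper48.KV.DefsG

/-!
# PROJECT KV (MP_66be51_an), section G1 - G3: goals

Every goal is a `def S_... : Prop` with a complete proof in the doc string.
-/

open MeasureTheory Set Filter Topology

noncomputable section

namespace Pool.Agent.Helper48.KV

open Pool.Agent.Helper33.KV Pool.Agent.Helper41.KV

/-- **STAT (1.5 h).** The static identity (integration of `flux_hasDeriv`) and integrability.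
PROOF.  (0) For a jet with `e k, e (k+1) ∈ L2`: `(e k)^2` has the integrable derivative
`2 e_k e_(k+1)` and is integrable, so it tends to `0` at `±∞`
(`MeasureTheory.tendsto_zero_of_hasDerivAt_of_integrableOn_Ioi / Iic`), and
`e_k(x)^2 = ∫_{-∞}^x 2 e_k e_(k+1) <= ∫ e_k^2 + ∫ e_(k+1)^2`; so every `e k` is bounded and tends to 0.
(1) Factor out `e`: `nG = e (5U^4+10U^3e+10U^2e^2+5Ue^3+e^4)`, `nG2 = e^2 (10U^3+10U^2e+5Ue^2+e^3)`,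
`nGG = e^2 (15U^4+20U^3e+15U^2e^2+6Ue^3+e^4)`,
`nGx = e1 * 5(U+e)^4 + 5 U1 e (4U^3+6U^2e+4Ue^2+e^3)`, and similarly `nGxx` = a sum of (bounded)*(one of
`e, e1, e2`). So `nG, nGx, nGxx` are in `L2` and tend to 0, `nG2, nGG` are integrable.
(2) every term of `lhsD` and of `rhsD` is (bounded continuous) * (product of two `L2` functions), hence
integrable; every term of `fluxD` is bounded * (something tending to 0), so `fluxD → 0` at `±∞`.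
(3) `integral_of_hasDerivAt_of_tendsto` with `flux_hasDeriv`: `∫ (lhsD - rhsD) = 0 - 0`. -/
def S_STAT : Prop :=
  ∀ e U p q : ℕ → ℝ → ℝ, L2Jet e → BJet U → BJet p → BJet q →
    ∀ S0 S1 : ℝ → ℝ, MemLp S0 2 → MemLp S1 2 →
    Integrable (fun x => lhsD (p 0 x) (q 0 x) (U 0 x) (U 1 x) (U 2 x) (e 0 x) (e 1 x) (e 2 x)
      (e 3 x) (e 4 x) (S0 x) (S1 x)) ∧
    Integrable (fun x => rhsD (p 0 x) (p 1 x) (p 3 x) (q 0 x) (q 1 x) (q 2 x) (q 3 x) (U 0 x)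
      (U 1 x) (e 0 x) (e 1 x) (e 2 x) (S0 x) (S1 x)) ∧
    (∫ x, lhsD (p 0 x) (q 0 x) (U 0 x) (U 1 x) (U 2 x) (e 0 x) (e 1 x) (e 2 x)
      (e 3 x) (e 4 x) (S0 x) (S1 x)) =
    ∫ x, rhsD (p 0 x) (p 1 x) (p 3 x) (q 0 x) (q 1 x) (q 2 x) (q 3 x) (U 0 x)
      (U 1 x) (e 0 x) (e 1 x) (e 2 x) (S0 x) (S1 x)

/-- **TIME (2 h).** The integrated identity. Hypothesis allowed: `S_STAT`.
PROOF.  Put `E(t,x) = dens(...)`, the integrand of `fun2`. For fixed `x`, `t ↦ E(t,x)` has on `Icc t1 t2`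
the derivative (within)
`∂_t E = p_t e^2 + q_t (e_x^2 - GG/3) + 2 p e e_t + 2 q e_x e_xt - 2 q G e_t - 2 q G2 U_t`
(`∂_U GG = 6 G2`, `∂_e GG = 6 G`; `HasTimeDeriv e et` with `k = 0, 1`). It is continuous on
`Icc t1 t2 ×ˢ univ`, so FTC (`intervalIntegral.integral_eq_sub_of_hasDerivAt_of_le` or the
`HasDerivWithinAt` version on `Ioo` plus continuity) gives `E(t2,x) - E(t1,x) = ∫_{t1}^{t2} ∂_t E(t,x) dt`.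
Sup bounds: all `x`-derivatives of `e, et, U, Ut` are bounded uniformly in `t` (`f(x)^2 <= ∫ f^2 + ∫ f'^2`
and the uniform `L2` bounds in `HInf`), so `|∂_t E| <= C (e^2 + e_x^2 + e_t^2 + e_xt^2)` and
`∫ |∂_t E| dx <= C'` uniformly; it is continuous on the product, so `∂_t E` is integrable on
`(volume.restrict (Ioc t1 t2)).prod volume` (`integrable_prod_iff` ; the norm integral is measurable and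
bounded on a finite measure set), Fubini (`intervalIntegral` of the `x`-integral) gives
`fun2 t2 - fun2 t1 = ∫_{t1}^{t2} ∫ ∂_t E dx dt`.
Finally for each `t`: since `e_t = - e_xxx - G_x + S` with `S = srcS U e et` and
`e_xt = - e_xxxx - G_xx + S_x`, `∂_t E = lhsD(...) + p_t e^2 + q_t(...) - 2 q G2 U_t` (pointwise,
`ring` after `deriv (fun x' => nG ..) = nGx`, `deriv (srcS ..) = et_x + e_xxxx + nGxx`), and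
`S_STAT` replaces `∫ lhsD` by `∫ rhsD`. The jets are `k ↦ iteratedDeriv k (e t)` etc. (`IsJet` from
`ContDiff ⊤`); `S, S_x ∈ L2` because all their terms are. `IntervalIntegrable` comes from Fubini. -/
def S_TIME : Prop :=
  ∀ (t1 t2 : ℝ) (p pt q qt U Ut e et : ℝ → ℝ → ℝ), t1 ≤ t2 → BInf p pt t1 t2 → BInf q qt t1 t2 →
    HInf U t1 t2 → HInf Ut t1 t2 → HasTimeDeriv U Ut t1 t2 →
    HInf e t1 t2 → HInf et t1 t2 → HasTimeDeriv e et t1 t2 →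
    (∀ t ∈ Icc t1 t2, Integrable (tInt p pt q qt U Ut e et t)) ∧
    (∀ t ∈ Icc t1 t2, Integrable
      (fun x => dens (p t x) (q t x) (U t x) (e t x) (deriv (e t) x))) ∧
    IntervalIntegrable (fun t => ∫ x, tInt p pt q qt U Ut e et t x) volume t1 t2 ∧
    fun2 p q U e t2 - fun2 p q U e t1 = ∫ t in t1..t2, ∫ x, tInt p pt q qt U Ut e et t x

/-- **WT0 (0.5 h).** Elementary facts on the logistic weight.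
PROOF.  `wt = 1/(1+ρ e^{-y/K})`: `wt' = ρ e^{-y/K}/K / (1+ρ e^{-y/K})^2 = wt (1-wt)/K` because
`1 - wt = ρ e^{-y/K} wt`. The next derivatives by the product rule (`ring`). `|1-2wt| <= 1`,
`|1-6wt+6wt^2| <= 1` on `[0,1]`. `ph1 <= wt/K <= e^{y/K}/(Kρ)` (drop the `1` in the denominator) and
`ph1 <= (1-wt)/K <= ρ e^{-y/K}/K <= e^{-y/K}/(K ρ)` for `ρ <= 1`. -/
def S_WT0 : Prop :=
  ∀ K ρ : ℝ, 0 < K → 0 < ρ →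
    ContDiff ℝ (⊤ : ℕ∞) (wt K ρ) ∧ ContDiff ℝ (⊤ : ℕ∞) (ph1 K ρ) ∧
    (∀ y, 0 < wt K ρ y ∧ wt K ρ y < 1) ∧ (∀ y, 1 - wt K ρ y = ρ * Real.exp (-(y / K)) * wt K ρ y) ∧
    (∀ y, HasDerivAt (wt K ρ) (ph1 K ρ y) y) ∧ (∀ y, HasDerivAt (ph1 K ρ) (ph2 K ρ y) y) ∧
    (∀ y, HasDerivAt (ph2 K ρ) (ph3 K ρ y) y) ∧
    (∀ y, 0 < ph1 K ρ y ∧ ph1 K ρ y ≤ wt K ρ y / K ∧ |ph2 K ρ y| ≤ ph1 K ρ y / K ∧
      |ph3 K ρ y| ≤ ph1 K ρ y / K ^ 2) ∧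
    (ρ ≤ 1 → ∀ y, ph1 K ρ y ≤ Real.exp (-(|y| / K)) / (K * ρ))

/-- **WTF (1.5 h).** The weights of the right functional are admissible fields. Hypothesis
allowed: `S_WT0`.
PROOF.  For `t > 0`: `σ = ((4α+3)t)^{1/(4α+3)} > 0` is smooth in `t` with `σ_t = λ^{-2}`
(`σ^{4α+3} = (4α+3) t`, so `(4α+3) σ^{4α+2} σ_t = 4α+3`), `λ_t = (2α+1) σ^{2α} λ^{-2} = (2α+1) ρ λ^{-2}`,
`ρ_t = 2α σ^{2α-1} λ^{-2} = 2α ρ^2 λ^{-3}` (`σ^{-1} = ρ/λ`). With `y = (x-σ)/λ`: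
`y_t = -λ^{-3} - (2α+1) ρ λ^{-3} y`. `∂_ρ wt = -e^{-y/K} wt^2 = -wt(1-wt)/ρ = -K ph1/ρ`. Hence
`∂_t pW = -K ph1/ρ * 2α ρ^2 λ^{-3} + ph1 * y_t = pWt`, and `qWt` by the product rule.
`x`-derivatives: by induction `iteratedDeriv k (pW t) x = λ^{-k} * P_k(wt(y))`, `P_0 = X`,
`P_(k+1) = P_k' * X (1-X)/K` (polynomials), so they are bounded (compactness of `[0,1]`, `λ` bounded below
on `Icc t1 t2`) and jointly continuous on `Icc t1 t2 ×ˢ univ` (`wt(y)` is a jointly continuous function of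
`(t,x)` as `σ, λ, ρ` are continuous and `λ ≠ 0`). `pWt` is jointly continuous, and bounded because
`|y| ph1(y) <= |y| e^{-|y|/K}/(Kρ)` and `ρ` is bounded below (if `ρ > 1`, use `ph1 <= max(ρ,1/ρ) e^{-|y|/K}/K`).
The same for `q = λ^2 p`. -/
def S_WTF : Prop :=
  ∀ α : ℝ, 0 < α → α < 1 → ∀ K : ℝ, 1 ≤ K → ∀ t1 t2 : ℝ, 0 < t1 → t1 ≤ t2 →
    (∀ t, 0 < t → HasDerivAt (sig α) (1 / lam α t ^ 2) t ∧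
      HasDerivAt (lam α) ((2 * α + 1) * rho α t / lam α t ^ 2) t ∧
      HasDerivAt (rho α) (2 * α * rho α t ^ 2 / lam α t ^ 3) t) ∧
    BInf (pW α K) (pWt α K) t1 t2 ∧ BInf (qW α K) (qWt α K) t1 t2 ∧
    (∀ t ∈ Icc t1 t2, ∀ x, deriv (pW α K t) x =
        ph1 K (rho α t) ((x - sig α t) / lam α t) / lam α t ∧
      iteratedDeriv 2 (pW α K t) x = ph2 K (rho α t) ((x - sig α t) / lam α t) / lam α t ^ 2 ∧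
      iteratedDeriv 3 (pW α K t) x = ph3 K (rho α t) ((x - sig α t) / lam α t) / lam α t ^ 3)

/-- **HDYN (1.5 h).** The dynamics of the right functional in inner variables. Hypotheses allowed:
`S_TIME`, `S_WTF`, `S_WT0`.
PROOF.  Apply `S_TIME` with `p = pW, q = qW`. Fix `t`, write `λ, σ, ρ`, `y = (x-σ)/λ`, `a = (2α+1)ρ`,
`b' = 2αKρ`, `ε = inn α e t`, `v = inn α V t`; so `e(x) = λ^{-1/2} ε(y)`, `e_x = λ^{-3/2} ε'(y)`,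
`e_xx = λ^{-5/2} ε''(y)`, `V = λ^{-1/2} v`, `V_x = λ^{-3/2} v'`; `GG(V,e) = λ^{-3} GG(v,ε)`,
`G = λ^{-5/2} G(v,ε)`, `G2 = λ^{-5/2} G2(v,ε)`; `S(x) = λ^{-7/2} Sin(y)`, `S_x = λ^{-9/2} Sin'(y)`,
`V_t = λ^{-1/2} (inn Vt)(y)`. `∫ F(x) dx = λ ∫ F(σ+λy) dy`. Then `fun2 = Hf` (the density times `λ` is
`φ(ε'^2 + ε^2 - GG/3)`), and with the formulas of `S_WTF` for the derivatives of `p, q` each term of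
`λ * tInt(σ+λy)` equals `λ^{-3}` times a term of `hInt`:
`-3 q_x e_xx^2 → -3 ph1 ε''^2`; `(q_xxx - 3p_x) e_x^2 → (ph3 - 3 ph1) ε'^2`; `p_xxx e^2 → ph3 ε^2`;
`-p_x GG/3 → -ph1 GG/3`; `-2 p V_x G2 → -2 φ v' G2`; `2 p_x G e → 2 ph1 G ε`;
`-G(4 q_x e_xx + 2 q_xx e_x) → -G(4 ph1 ε'' + 2 ph2 ε')`; `-q_x G^2 → -ph1 G^2`;
`2(pSe+qS_xe_x-qSG) → 2φ(Sε+S'ε'-SG)`; `p_t e^2 → -ph1(1+ay+b') ε^2`;
`q_t(e_x^2 - GG/3) → (2aφ - ph1(1+ay+b'))(ε'^2 - GG/3)`; `-2 q G2 V_t → -2 φ G2 λ^3 inn Vt`.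
The sum is `hInt` with `DV = λ^3 inn Vt + v'`. (One `field_simp; ring` after setting `λ = s^2`, `s > 0`,
`Real.sqrt λ = s`.) -/
def S_HDYN : Prop :=
  ∀ α : ℝ, 0 < α → α < 1 → ∀ K : ℝ, 1 ≤ K → ∀ (t1 t2 : ℝ) (V Vt e et : ℝ → ℝ → ℝ),
    0 < t1 → t1 ≤ t2 → HInf V t1 t2 → HInf Vt t1 t2 → HasTimeDeriv V Vt t1 t2 →
    HInf e t1 t2 → HInf et t1 t2 → HasTimeDeriv e et t1 t2 →
    (∀ t ∈ Icc t1 t2,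
      Integrable (hInt α K (rho α t) (inn α V t) (DVf α V Vt t) (inn α e t) (Sin α V e et t))) ∧
    IntervalIntegrable (fun t => (lam α t ^ 3)⁻¹ *
      ∫ y, hInt α K (rho α t) (inn α V t) (DVf α V Vt t) (inn α e t) (Sin α V e et t) y)
      volume t1 t2 ∧
    Hf K (rho α t2) (inn α V t2) (inn α e t2) - Hf K (rho α t1) (inn α V t1) (inn α e t1) =
      ∫ t in t1..t2, (lam α t ^ 3)⁻¹ *
        ∫ y, hInt α K (rho α t) (inn α V t) (DVf α V Vt t) (inn α e t) (Sin α V e et t) y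

/-- **ALG (0.4 h).** Elementary bounds.
PROOF.  Expand (`nG = 5U^4e+10U^3e^2+10U^2e^3+5Ue^4+e^5`, `nG2` without the first term,
`nGG = 15U^4e^2+20U^3e^3+15U^2e^4+6Ue^5+e^6`), use `a = |U|, b = |e| >= 0` and the monomial inequality
`a^i b^j <= a^m b^n' + a^0 b^(...)` for intermediate exponents with the same total degree, e.g.
`a^3 b^2 <= a^4 b + b^5`; in each case: if `a <= b` the monomial is `<=` the pure power of `b`, if `b <= a`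
it is `<=` the first monomial. -/
def S_ALG : Prop :=
  ∀ U e : ℝ, |nGG U e| ≤ 60 * (U ^ 4 * e ^ 2 + e ^ 6) ∧ |nG U e| ≤ 40 * (U ^ 4 * |e| + |e| ^ 5) ∧
    |nG U e * e| ≤ 40 * (U ^ 4 * e ^ 2 + e ^ 6) ∧ |nG2 U e| ≤ 40 * (|U| ^ 3 * e ^ 2 + |e| ^ 5) ∧
    nG U e ^ 2 ≤ 3200 * (U ^ 8 * e ^ 2 + e ^ 10) ∧
    |nGG U e - 15 * U ^ 4 * e ^ 2| ≤ 60 * (|U| ^ 3 * |e| ^ 3 + e ^ 6)

/-- **PW (0.8 h).** A pointwise inequality. Hypothesis allowed: `S_WT0`.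
PROOF.  If `|y| <= ρ^{-1/8}`: `(1+y^2)^2 <= 4 ρ^{-1/2}`, so `ρ^2 (1+y^2)^2 <= 4 ρ^{3/2} <= δ` for small `ρ`.
If `|y| > ρ^{-1/8}`: `1 < ρ y^8`, so by `S_WT0` (`ph1 <= e^{-|y|/K}/(Kρ)`)
`ρ^2 (1+y^2)^2 ph1 <= ρ (1+y^2)^2 e^{-|y|/K} (ρ y^8)^m <= C ρ^{m+1} <= ρ^m`, where
`C = sup y^{8m} (1+y^2)^2 e^{-|y|/K} < ∞` (`x^n/n! <= e^x`). -/
def S_PW : Prop :=
  ∀ K : ℝ, 1 ≤ K → ∀ m : ℕ, ∀ δ : ℝ, 0 < δ → ∃ ρ0 : ℝ, 0 < ρ0 ∧ ρ0 ≤ 1 ∧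
    ∀ ρ : ℝ, 0 < ρ → ρ ≤ ρ0 → ∀ y : ℝ,
      ρ ^ 2 * (1 + y ^ 2) ^ 2 * ph1 K ρ y ≤ δ * ph1 K ρ y + ρ ^ m

/-- **INTERP (1 h).** Interpolation with the weight `ρ^2 (4+y^2) ph1`. Hypotheses allowed: `S_WT0`, `S_PW`.
PROOF.  `ψ = ρ^2 (4+y^2) ph1` is smooth, bounded with its derivatives. Integrating by parts twice
(`integral_mul_deriv_eq_deriv_mul_of_integrable`): `∫ψε'^2 = -∫ψεε'' - ∫ψ'εε' = -∫ψεε'' + (1/2)∫ψ''ε^2`.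
`|ψεε''| <= (δ/2) ph1 ε''^2 + ρ^4(4+y^2)^2 ph1 ε^2/(2δ)`, `(4+y^2)^2 <= 16 (1+y^2)^2`,
`|ψ''| <= ρ^2 (2 ph1 + 4|y||ph2| + (4+y^2)|ph3|) <= 8 ρ^2 (1+y^2)^2 ph1` (`K >= 1`). Now `S_PW` with a
small `δ'` and `m+1` (absorb constants with `ρ <= ρ0`). -/
def S_INTERP : Prop :=
  ∀ K : ℝ, 1 ≤ K → ∀ m : ℕ, ∀ δ : ℝ, 0 < δ → ∃ ρ0 : ℝ, 0 < ρ0 ∧ ρ0 ≤ 1 ∧
    ∀ ρ : ℝ, 0 < ρ → ρ ≤ ρ0 → ∀ ε : ℝ → ℝ, HI ε →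
      (∫ y, ρ ^ 2 * (4 + y ^ 2) * ph1 K ρ y * deriv ε y ^ 2) ≤
        δ * (∫ y, ph1 K ρ y * (deriv (deriv ε) y ^ 2 + ε y ^ 2)) + ρ ^ m * ∫ y, ε y ^ 2

/-- **FREE (1 h).** The quadratic part. Hypotheses allowed: `S_WT0`, `S_PW`, `S_INTERP`.
PROOF.  `a = (2α+1)ρ <= 3ρ`, `b' = 2αKρ >= 0`. Pointwise, `ph1 > 0`, `|ph3| <= ph1/64` (`K >= 8`).
`-a y <= a|y| <= 1/4 + a^2 y^2 <= 1/4 + 9ρ^2 (4+y^2)`. So the coefficient of `ε'^2` is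
`<= 2aφ + ph1(-4 + 1/64 + 1/4) + 9ρ^2(4+y^2) ph1` and the coefficient of `ε^2` is
`<= ph1(-1+1/64+1/4) + 9 ρ^2 (4+y^2) ph1`. Use `S_INTERP` (with `δ = 1/100`, `m+1`) for the `ε'^2` part,
and `S_PW` for the `ε^2` part (`4+y^2 <= 4(1+y^2)^2`, `δ = 1/1000`). The `ε''^2` coefficient is
`-3 + 9/100 <= -2`; `ε'^2`: `<= -3`; `ε^2`: `-1+1/64+1/4+9/100+36/1000 <= -1/2`. Integrability: all weights bounded (`|y| ph1` bounded). -/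
def S_FREE : Prop :=
  ∀ α : ℝ, 0 < α → α < 1 → ∀ K : ℝ, 8 ≤ K → ∀ m : ℕ, ∃ ρ0 : ℝ, 0 < ρ0 ∧ ρ0 ≤ 1 ∧
    ∀ ρ : ℝ, 0 < ρ → ρ ≤ ρ0 → ∀ ε : ℝ → ℝ, HI ε →
      Integrable (freeInt α K ρ ε) ∧
      (∫ y, freeInt α K ρ ε y) ≤
        -2 * (∫ y, ph1 K ρ y * deriv (deriv ε) y ^ 2) - 3 * (∫ y, ph1 K ρ y * deriv ε y ^ 2)
          - 1 / 2 * (∫ y, ph1 K ρ y * ε y ^ 2) + 6 * ρ * (∫ y, wt K ρ y * deriv ε y ^ 2)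
          + ρ ^ m * ∫ y, ε y ^ 2

/-- **NL (2 h).** The nonlinear part. Hypotheses allowed: `S_WT0`, `S_ALG`, `S_PW`, `S_INTERP`, `S_WGN`.
PROOF.  `M = ∫ε^2 <= ε0 <= 1`, `Hn = ∫φ(ε'^2+ε^2)`, `D = Dn`. `C` = constants depending on `K, CV` only.
WGN applies with the weights `w = φ` (`|φ'| <= φ/K`), `w = ph1` (`|ph2| <= ph1/K`) and
`w = ψ = ρ^2(4+y^2)ph1` (`|ψ'| <= ρ^2(2|y| + (4+y^2)/K) ph1 <= ψ` because `2|y| <= (4+y^2)/2`, `K >= 2`):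
(w1) `∫φε^6 <= 8M^2 Hn <= 8 Hn`; (w2) `∫ph1 ε^6 <= 8M^2 D`, `∫ph1 ε^10 <= 256 M^4 D`;
(w3) `∫ψε^6 <= 8M^2 ∫ψ(ε'^2+ε^2) <= 8 M^2 (D + ρ^(m+1) M)·2` by `S_INTERP` (`δ = 1`) and `S_PW`.
`v^4 <= 8 CV^4 (e^{-2|y|} + ρ^2)`, `|v| <= 2 CV`; `ph1 e^{-2|y|} <= ρ φ` because
`ph1 = φ(1-φ)/K`, `1-φ = ρ e^{-y/K} φ <= ρ e^{|y|}`. So (v) `ph1 v^4 ε^2 <= C(ρφ + ρ^2 ph1) ε^2`, and the
same for `v^8`; and `ρ(1+|y|) v^4 ph1 <= C(ρ·ph1·1 + ρ^3(1+|y|)ph1) <= C ρ ph1 + C ρ^2(1+y^2)^2·ρ·ph1`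
(use `(1+|y|) e^{-2|y|} <= 1`), handled by `S_PW`.
Terms: (1) `2aφ|GG|/3 <= C ρ φ(ε^2+ε^6)` → `C ρ Hn` (w1). (2) `ph1 (a|y|+b')|GG|/3 <=
C ρ(1+|y|) ph1 (v^4 ε^2 + ε^6)`: first part by the last remark; second: `ρ(1+|y|) <= 1 + ρ^2(4+y^2)`,
(w2), (w3) with `M <= ε0` small. (3) `2φ|G2||DV| <= C ρ φ(ε^2 + |ε|^5) <= C ρ φ (ε^2+ε^6)`.
(4) `2 ph1 |Gε| <= C ph1(v^4ε^2+ε^6)`: (v), (w2). (5) `|G||4 ph1 ε'' + 2 ph2 ε'| <=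
(1/100) ph1 (ε''^2+ε'^2) + C ph1 G^2`, `ph1 G^2 <= C ph1 (v^8 ε^2 + ε^10)`: (v), (w2).
(6) `-ph1 G^2 <= 0`. Choose `ε0` so small (depending on `C`) that all the `M^2 D`, `M^4 D` terms are
`<= D/100` each, `ρ0` small for the `ρ ph1`, `ρ^2 ph1` terms; the total is `<= Cρ Hn + D/4 + ρ^m M`. -/
def S_NL : Prop :=
  ∀ α : ℝ, 0 < α → α < 1 → ∀ K : ℝ, 8 ≤ K → ∀ (CV : ℝ) (m : ℕ), 1 ≤ CV →
    ∃ C ρ0 ε0 : ℝ, 0 < C ∧ 0 < ρ0 ∧ ρ0 ≤ 1 ∧ 0 < ε0 ∧ ε0 ≤ 1 ∧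
    ∀ ρ : ℝ, 0 < ρ → ρ ≤ ρ0 → ∀ v DV ε : ℝ → ℝ, Continuous v → Continuous DV → HI ε →
      (∀ y, |v y| ≤ CV * (Real.exp (-(|y| / 2)) + Real.sqrt ρ)) → (∀ y, |DV y| ≤ CV * ρ) →
      (∫ y, ε y ^ 2) ≤ ε0 →
      Integrable (nlInt α K ρ v DV ε) ∧
      (∫ y, nlInt α K ρ v DV ε y) ≤ C * ρ * Hn K ρ ε + 1 / 4 * Dn K ρ ε + ρ ^ m * ∫ y, ε y ^ 2

/-- **SRC (2 h).** The source part. Hypotheses allowed: `S_WT0`, `S_ALG`, `S_WGN`, `S_QF`, and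
`L(ΛQ) = -2Q` (first clause of `S_PR`).
PROOF.  `h = sqrt (Hn)`, `M <= 1`, `S = A τ + B θ + S0` and `S' = A τ' + B θ' + S0'`.
(a) `τ`-part: `T = ∫ 2φ(τ ε + τ' ε' - τ G)`. Write `G = 5v^4 ε + G2`. `|τ| <= C e^{-|y|/2}`, so
`|∫ φ τ G2| <= C ∫ φ(|v|^3 ε^2 + |ε|^5) <= C ∫φ(ε^2+ε^6) <= C h^2` (WGN with `w = φ`, `M <= 1`).
`v^4 = Q^4 + (v^4 - Q^4)`, `|v^4-Q^4| <= |v-Q| 4 (|v|+|Q|)^3 <= C ρ e^{|y|/8}`, so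
`|∫φτ 5(v^4-Q^4) ε| <= C ρ ∫ φ e^{-3|y|/8}|ε| <= C ρ h` (Cauchy-Schwarz, `φ <= 1`). Replace `τ, τ'` by
`ΛQ, (ΛQ)'` : error `<= C ρ ∫ φ e^{-|y|/2}(|ε|+|ε'|) <= C ρ h`. Replace `φ` by `1`:
`1 - φ = ρ e^{-y/K} φ`, `|ΛQ|, |(ΛQ)'| <= C e^{-3|y|/4}`, `K >= 8`: error
`<= C ρ ∫ φ e^{-|y|/2}(|ε|+|ε'|) <= C ρ h`. What remains is
`2∫(ΛQ ε + (ΛQ)'ε' - 5Q^4 ΛQ ε) = 2∫ L(ΛQ) ε = -4 ∫ Q ε` (integration by parts).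
So `|T| <= C(|∫εQ| + ρ h + h^2)`. (b) `θ`-part: the same with `Q'`, `L Q' = 0` (differentiate
`Q'' = Q - Q^5`), so `<= C(ρ h + h^2)`.
(c) `S0`-part: `|∫2φ(S0 ε + S0' ε')| <= 4 s0 h`; `|∫ 2φ S0 G| <= C∫φ|S0|(|ε| + |ε|^5)
<= C s0 h + C ρ ∫φ(ε^2+ε^6) <= C s0 h + C ρ h^2` (`|G| <= 40(v^4|ε|+|ε|^5)`, `|v| <= 2CV`, `|S0| <= ρ`,
`|ε|^5 <= ε^2+ε^6`). -/
def S_SRC : Prop :=
  ∀ K : ℝ, 8 ≤ K → ∀ CV : ℝ, 1 ≤ CV → ∃ C : ℝ, 0 < C ∧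
    ∀ ρ : ℝ, 0 < ρ → ρ ≤ 1 → ∀ v ε τ θ S0 S : ℝ → ℝ, ∀ A B s0 : ℝ, Continuous v → HI ε →
      ContDiff ℝ (⊤ : ℕ∞) τ → ContDiff ℝ (⊤ : ℕ∞) θ → ContDiff ℝ (⊤ : ℕ∞) S0 →
      (∀ y, |v y| ≤ CV * (Real.exp (-(|y| / 2)) + Real.sqrt ρ)) →
      (∀ y, |v y - Q y| ≤ CV * ρ * Real.exp (|y| / 8)) →
      (∀ y, |τ y - Lam Q y| ≤ CV * ρ * Real.exp (-(|y| / 2))) →
      (∀ y, |deriv τ y - deriv (Lam Q) y| ≤ CV * ρ * Real.exp (-(|y| / 2))) →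
      (∀ y, |θ y - deriv Q y| ≤ CV * ρ * Real.exp (-(|y| / 2))) →
      (∀ y, |deriv θ y - deriv (deriv Q) y| ≤ CV * ρ * Real.exp (-(|y| / 2))) →
      (∀ y, |S0 y| ≤ ρ) → Integrable (fun y => wt K ρ y * (S0 y ^ 2 + deriv S0 y ^ 2)) →
      0 ≤ s0 → (∫ y, wt K ρ y * (S0 y ^ 2 + deriv S0 y ^ 2)) ≤ s0 ^ 2 →
      (∀ y, S y = A * τ y + B * θ y + S0 y) → (∫ y, ε y ^ 2) ≤ 1 →
      Integrable (srcInt K ρ v ε S) ∧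
      |∫ y, srcInt K ρ v ε S y| ≤ C * ((|A| + |B|) * (|∫ y, ε y * Q y|
        + ρ * Real.sqrt (Hn K ρ ε) + Hn K ρ ε) + s0 * Real.sqrt (Hn K ρ ε) + ρ * Hn K ρ ε)

/-- **HSTAT (0.5 h).** The sum. Hypotheses allowed: `S_FREE`, `S_NL`, `S_SRC`, `S_WT0`.
PROOF.  Add the three; `-2,-3,-1/2` plus `1/4` is `<= -1/4` on each part of `D`; `6ρ∫φε'^2 <= 6ρ Hn`. -/
def S_HSTAT : Prop :=
  ∀ α : ℝ, 0 < α → α < 1 → ∀ K : ℝ, 8 ≤ K → ∀ (CV : ℝ) (m : ℕ), 1 ≤ CV →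
    ∃ C ρ0 ε0 : ℝ, 0 < C ∧ 0 < ρ0 ∧ ρ0 ≤ 1 ∧ 0 < ε0 ∧ ε0 ≤ 1 ∧
    ∀ ρ : ℝ, 0 < ρ → ρ ≤ ρ0 → ∀ v DV ε τ θ S0 S : ℝ → ℝ, ∀ A B s0 : ℝ,
      Continuous v → Continuous DV → HI ε →
      ContDiff ℝ (⊤ : ℕ∞) τ → ContDiff ℝ (⊤ : ℕ∞) θ → ContDiff ℝ (⊤ : ℕ∞) S0 →
      (∀ y, |v y| ≤ CV * (Real.exp (-(|y| / 2)) + Real.sqrt ρ)) →
      (∀ y, |v y - Q y| ≤ CV * ρ * Real.exp (|y| / 8)) → (∀ y, |DV y| ≤ CV * ρ) →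
      (∀ y, |τ y - Lam Q y| ≤ CV * ρ * Real.exp (-(|y| / 2))) →
      (∀ y, |deriv τ y - deriv (Lam Q) y| ≤ CV * ρ * Real.exp (-(|y| / 2))) →
      (∀ y, |θ y - deriv Q y| ≤ CV * ρ * Real.exp (-(|y| / 2))) →
      (∀ y, |deriv θ y - deriv (deriv Q) y| ≤ CV * ρ * Real.exp (-(|y| / 2))) →
      (∀ y, |S0 y| ≤ ρ) → Integrable (fun y => wt K ρ y * (S0 y ^ 2 + deriv S0 y ^ 2)) →
      0 ≤ s0 → (∫ y, wt K ρ y * (S0 y ^ 2 + deriv S0 y ^ 2)) ≤ s0 ^ 2 →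
      (∀ y, S y = A * τ y + B * θ y + S0 y) → (∫ y, ε y ^ 2) ≤ ε0 →
      Integrable (hInt α K ρ v DV ε S) ∧
      (∫ y, hInt α K ρ v DV ε S y) ≤ -(1 / 4) * Dn K ρ ε
        + C * (ρ * Hn K ρ ε + (|A| + |B|) * (|∫ y, ε y * Q y|
            + ρ * Real.sqrt (Hn K ρ ε) + Hn K ρ ε) + s0 * Real.sqrt (Hn K ρ ε))
        + ρ ^ m * ∫ y, ε y ^ 2

/-- **HCOER (1.2 h).** Coercivity of the right functional. Hypotheses allowed: `S_WT0`, `S_ALG`,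
`S_WCOERC`, `S_WGN`, `S_QF`.
PROOF.  `GG/3 = 5v^4ε^2 + R`, `|R| <= 20(|v|^3|ε|^3 + ε^6)` (`S_ALG`), `|v| <= 2CV`. For `δ > 0`:
`|ε|^3 <= δ ε^2 + δ^{-3} ε^6` (if `|ε| <= δ` first, else `|ε|^3 <= δ^{-3}|ε|^6`), so by WGN with `w = φ`:
`∫φ|R| <= C (δ + δ^{-3} M^2) Hn`. `|v^4-Q^4| <= 4|v-Q|(|v|+Q)^3`, `(|v|+Q)^3 <= C(e^{-3|y|/2}+ρ^{3/2})`,
`|v-Q| <= CV ρ e^{|y|/8}` and `|v-Q| <= |v|+Q <= C`, so `|v^4-Q^4| <= C ρ` and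
`∫φ5|v^4-Q^4|ε^2 <= CρHn`. Hence `|Hf - ∫φ(ε'^2+ε^2-5Q^4ε^2)| <= (1/64) Hn` when `δ` is a small constant,
then `ε0`, `ρ0` small; `S_WCOERC` gives `Hf >= (1/32 - 1/64) Hn`. Upper bound: `5Q^4 <= 15`. -/
def S_HCOER : Prop :=
  ∀ K : ℝ, 64 ≤ K → ∀ CV : ℝ, 1 ≤ CV → ∃ ρ0 ε0 : ℝ, 0 < ρ0 ∧ ρ0 ≤ 1 ∧ 0 < ε0 ∧ ε0 ≤ 1 ∧
    ∀ ρ : ℝ, 0 < ρ → ρ ≤ ρ0 → ∀ v ε : ℝ → ℝ, Continuous v → HI ε →
      (∀ y, |v y| ≤ CV * (Real.exp (-(|y| / 2)) + Real.sqrt ρ)) →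
      (∀ y, |v y - Q y| ≤ CV * ρ * Real.exp (|y| / 8)) → (∫ y, ε y ^ 2) ≤ ε0 →
      (∫ y, ε y * Q y ^ 3) = 0 → (∫ y, ε y * deriv Q y) = 0 →
      Hn K ρ ε ≤ 64 * Hf K ρ v ε ∧ Hf K ρ v ε ≤ 20 * Hn K ρ ε

end Pool.Agent.Helper48.KV
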