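import Pool.Agent.Helper48.KV.GoalsG1

/-!
# PROJECT KV (MP_66be51_an): `S_NL` and `S_HSTAT` with the constant `C` chosen before `m`
-/

open MeasureTheory Set Filter Topology

noncomputable section

namespace Pool.Agent.Helper48.KV

open Pool.Agent.Helper33.KV Pool.Agent.Helper41.KV

/-- `S_NL` with `C` before `m`. -/
def S_NLm : Prop :=
  ∀ α : ℝ, 0 < α → α < 1 → ∀ K : ℝ, 8 ≤ K → ∀ CV : ℝ, 1 ≤ CV → ∃ C : ℝ, 0 < C ∧ ∀ m : ℕ,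
    ∃ ρ0 ε0 : ℝ, 0 < ρ0 ∧ ρ0 ≤ 1 ∧ 0 < ε0 ∧ ε0 ≤ 1 ∧
    ∀ ρ : ℝ, 0 < ρ → ρ ≤ ρ0 → ∀ v DV ε : ℝ → ℝ, Continuous v → Continuous DV → HI ε →
      (∀ y, |v y| ≤ CV * (Real.exp (-(|y| / 2)) + Real.sqrt ρ)) → (∀ y, |DV y| ≤ CV * ρ) →
      (∫ y, ε y ^ 2) ≤ ε0 →
      Integrable (nlInt α K ρ v DV ε) ∧
      (∫ y, nlInt α K ρ v DV ε y) ≤ C * ρ * Hn K ρ ε + 1 / 4 * Dn K ρ ε + ρ ^ m * ∫ y, ε y ^ 2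

/-- `S_HSTAT` with `C` before `m`. -/
def S_HSTATm : Prop :=
  ∀ α : ℝ, 0 < α → α < 1 → ∀ K : ℝ, 8 ≤ K → ∀ CV : ℝ, 1 ≤ CV → ∃ C : ℝ, 0 < C ∧ ∀ m : ℕ,
    ∃ ρ0 ε0 : ℝ, 0 < ρ0 ∧ ρ0 ≤ 1 ∧ 0 < ε0 ∧ ε0 ≤ 1 ∧
    ∀ ρ : ℝ, 0 < ρ → ρ ≤ ρ0 → ∀ v DV ε τ θ S0 S : ℝ → ℝ, ∀ A B s0 : ℝ,
      Continuous v → Continuous DV → HI ε →
      ContDiff ℝ (⊤ : ℕ∞) τ → ContDiff ℝ (⊤ : ℕ∞) θ → ContDiff ℝ (⊤ : ℕ∞) S0 →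
      (∀ y, |v y| ≤ CV * (Real.exp (-(|y| / 2)) + Real.sqrt ρ)) →
      (∀ y, |v y - Q y| ≤ CV * ρ * Real.exp (|y| / 8)) → (∀ y, |DV y| ≤ CV * ρ) →
      (∀ y, |τ y - Lam Q y| ≤ CV * ρ * Real.exp (-(|y| / 2))) →
      (∀ y, |deriv τ y - deriv (Lam Q) y| ≤ CV * ρ * Real.exp (-(|y| / 2))) →
      (∀ y, |θ y - deriv Q y| ≤ CV * ρ * Real.exp (-(|y| / 2))) →
      (∀ y, |deriv θ y - deriv (deriv Q) y| ≤ CV * ρ * Real.exp (-(|y| / 2))) →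
      (∀ y, |S0 y| ≤ ρ) → Integrable (fun y => wt K ρ y * (S0 y ^ 2 + deriv S0 y ^ 2)) →
      0 ≤ s0 → (∫ y, wt K ρ y * (S0 y ^ 2 + deriv S0 y ^ 2)) ≤ s0 ^ 2 →
      (∀ y, S y = A * τ y + B * θ y + S0 y) → (∫ y, ε y ^ 2) ≤ ε0 →
      Integrable (hInt α K ρ v DV ε S) ∧
      (∫ y, hInt α K ρ v DV ε S y) ≤ -(1 / 4) * Dn K ρ ε
        + C * (ρ * Hn K ρ ε + (|A| + |B|) * (|∫ y, ε y * Q y|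
            + ρ * Real.sqrt (Hn K ρ ε) + Hn K ρ ε) + s0 * Real.sqrt (Hn K ρ ε))
        + ρ ^ m * ∫ y, ε y ^ 2

end Pool.Agent.Helper48.KV
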