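import Pool.Agent.Helper11.KV.HSTAT
import Pool.Agent.Helper48.KV.GoalsG2

/-!
# KV HSTAT with C before m (proof of helper11, quantifiers reordered)
-/

open MeasureTheory Set Filter Topology

noncomputable section

namespace Pool.Agent.Helper48.KV

open Pool.Agent.Helper33.KV Pool.Agent.Helper41.KV Pool.Agent.Helper48.KV Pool.Agent.Helper11.KV

theorem hstatm (h1 : S_FREE) (h2 : S_NLm) (h3 : S_SRC) (h4 : S_WT0) : S_HSTATm := by
  intro α hα hα1 K hK CV hCV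
  obtain ⟨C1, hC1, hnl0⟩ := h2 α hα hα1 K hK CV hCV
  obtain ⟨C2, hC2, hsrc⟩ := h3 K hK CV hCV
  refine ⟨6 + C1 + C2, by positivity, fun m => ?_⟩
  obtain ⟨ρ1, hρ1, hρ1', hfree⟩ := h1 α hα hα1 K hK (m + 1)
  obtain ⟨ρ2, ε0, hρ2, hρ2', hε0, hε0', hnl⟩ := hnl0 (m + 1)
  refine ⟨min (min ρ1 ρ2) (1 / 2), ε0, by positivity,
    (min_le_right _ _).trans (by norm_num), hε0, hε0', ?_⟩
  intro ρ hρ hρle v DV ε τ θ S0 S A B s0 hv hDV hε hτ hθ hS0 b1 b2 b3 b4 b5 b6 b7 b8 i1 hs0 i2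
    hS hM
  have hr1 : ρ ≤ ρ1 := hρle.trans ((min_le_left _ _).trans (min_le_left _ _))
  have hr2 : ρ ≤ ρ2 := hρle.trans ((min_le_left _ _).trans (min_le_right _ _))
  have hr3 : ρ ≤ 1 / 2 := hρle.trans (min_le_right _ _)
  obtain ⟨f1, f2⟩ := hfree ρ hρ hr1 ε hε
  obtain ⟨n1, n2⟩ := hnl ρ hρ hr2 v DV ε hv hDV hε b1 b3 hM
  obtain ⟨s1, s2⟩ := hsrc ρ hρ (by linarith) v ε τ θ S0 S A B s0 hv hε hτ hθ hS0 b1 b2 b4 b5 b6 b7
    b8 i1 hs0 i2 hS (hM.trans hε0')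
  have hK0 : 0 < K := by linarith
  obtain ⟨w1, w2, w3, -, -, -, -, w4, -⟩ := h4 K ρ hK0 hρ
  -- the weights
  have hwc : Continuous (wt K ρ) := w1.continuous
  have hpc : Continuous (ph1 K ρ) := w2.continuous
  have hwb : ∀ y, |wt K ρ y| ≤ 1 := fun y => by
    rw [abs_of_pos (w3 y).1]; exact (w3 y).2.le
  have hpb : ∀ y, |ph1 K ρ y| ≤ 1 := fun y => by
    rw [abs_of_pos (w4 y).1]
    refine (w4 y).2.1.trans ?_
    rw [div_le_one hK0]
    linarith [(w3 y).2]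
  have m0 : MemLp ε 2 := by simpa using hε.2 0
  have m1 : MemLp (deriv ε) 2 := by simpa using hε.2 1
  have m2 : MemLp (deriv (deriv ε)) 2 := by
    have := hε.2 2
    rwa [iteratedDeriv_succ, iteratedDeriv_one] at this
  have p0 := integrable_weight_sq hpc hpb m0
  have p1 := integrable_weight_sq hpc hpb m1
  have p2 := integrable_weight_sq hpc hpb m2
  have q0 := integrable_weight_sq hwc hwb m0
  have q1 := integrable_weight_sq hwc hwb m1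
  set P0 := ∫ y, ph1 K ρ y * ε y ^ 2 with hP0
  set P1 := ∫ y, ph1 K ρ y * deriv ε y ^ 2 with hP1
  set P2 := ∫ y, ph1 K ρ y * deriv (deriv ε) y ^ 2 with hP2
  set Q0 := ∫ y, wt K ρ y * ε y ^ 2 with hQ0
  set Q1 := ∫ y, wt K ρ y * deriv ε y ^ 2 with hQ1
  have hD : Dn K ρ ε = P2 + P1 + P0 := by
    rw [hP0, hP1, hP2, ← int_add3 p2 p1 p0]
    unfold Dn
    refine integral_congr_ae (Eventually.of_forall fun y => ?_)
    ring
  have hH : Hn K ρ ε = Q1 + Q0 := by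
    rw [hQ0, hQ1, ← int_add2 q1 q0]
    unfold Hn
    refine integral_congr_ae (Eventually.of_forall fun y => ?_)
    ring
  have hP0n : 0 ≤ P0 := integral_nonneg fun y => mul_nonneg (w4 y).1.le (sq_nonneg _)
  have hP1n : 0 ≤ P1 := integral_nonneg fun y => mul_nonneg (w4 y).1.le (sq_nonneg _)
  have hP2n : 0 ≤ P2 := integral_nonneg fun y => mul_nonneg (w4 y).1.le (sq_nonneg _)
  have hQ0n : 0 ≤ Q0 := integral_nonneg fun y => mul_nonneg (w3 y).1.le (sq_nonneg _)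
  have hMn : 0 ≤ ∫ y, ε y ^ 2 := integral_nonneg fun y => sq_nonneg _
  have hpow : ρ ^ (m + 1) * 2 ≤ ρ ^ m := by
    rw [pow_succ]
    have : 0 ≤ ρ ^ m := by positivity
    nlinarith
  have hpM : 2 * (ρ ^ (m + 1) * ∫ y, ε y ^ 2) ≤ ρ ^ m * ∫ y, ε y ^ 2 := by
    have := mul_le_mul_of_nonneg_right hpow hMn
    linarith
  have hint : Integrable (hInt α K ρ v DV ε S) := (f1.add n1).add s1
  refine ⟨hint, ?_⟩
  have hsum : (∫ y, hInt α K ρ v DV ε S y) =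
      (∫ y, freeInt α K ρ ε y) + (∫ y, nlInt α K ρ v DV ε y) + ∫ y, srcInt K ρ v ε S y := by
    rw [← int_add3 f1 n1 s1]
    rfl
  have s3 := (le_abs_self _).trans s2
  have hQ1H : ρ * Q1 ≤ ρ * Hn K ρ ε := by
    rw [hH]; exact mul_le_mul_of_nonneg_left (by linarith) hρ.le
  have hHn : 0 ≤ Hn K ρ ε := by
    rw [hH]
    have : 0 ≤ Q1 := integral_nonneg fun y => mul_nonneg (w3 y).1.le (sq_nonneg _)
    linarith
  set E := (|A| + |B|) * (|∫ y, ε y * Q y| + ρ * Real.sqrt (Hn K ρ ε) + Hn K ρ ε) with hE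
  have hEn : 0 ≤ E := by
    rw [hE]
    have : 0 ≤ Real.sqrt (Hn K ρ ε) := Real.sqrt_nonneg _
    positivity
  have hFn : 0 ≤ s0 * Real.sqrt (Hn K ρ ε) := mul_nonneg hs0 (Real.sqrt_nonneg _)
  have hRn : 0 ≤ ρ * Hn K ρ ε := mul_nonneg hρ.le hHn
  rw [hsum]
  rw [hD] at n2 ⊢
  have e1 : 0 ≤ (6 + C1) * (E + s0 * Real.sqrt (Hn K ρ ε)) := by positivity
  nlinarith [f2, n2, s3, hpM, hQ1H, e1]


end Pool.Agent.Helper48.KV
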