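import Pool.Agent.Helper56.KV.NL
import Pool.Agent.Helper48.KV.GoalsG2

/-!
# KV NL with C before m (proof of helper56, quantifiers reordered)
-/

open MeasureTheory Set Filter Topology

noncomputable section

namespace Pool.Agent.Helper48.KV

open Pool.Agent.Helper33.KV Pool.Agent.Helper41.KV Pool.Agent.Helper48.KV Pool.Agent.Helper56.KV

theorem nlm (h1 : S_WT0) (h2 : S_ALG) (h3 : S_PW) (h4 : S_INTERP) (h5 : S_WGN) : S_NLm := by
  intro α hα0 hα1 K hK CV hCV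
  have hK1 : 1 ≤ K := by linarith
  have hK0 : 0 < K := by linarith
  set A := NA K CV with hA
  have hA1 : 1 ≤ A := by
    have q0 : 1 ≤ CV ^ 8 := one_le_pow₀ hCV
    rw [hA, NA]
    nlinarith
  have hA0 : 0 < A := by linarith
  refine ⟨9 * A, by positivity, fun m => ?_⟩
  obtain ⟨ρa, hρa, hρa1, hPW⟩ := h3 K hK1 m 1 one_pos
  obtain ⟨ρb, hρb, hρb1, hIN⟩ := h4 K hK1 m 1 one_pos
  refine ⟨min (min ρa ρb) (1 / (2 * A)), 1 / (100 * A), by positivity,
    (min_le_left _ _).trans ((min_le_left _ _).trans hρa1), by positivity, ?_, ?_⟩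
  · rw [div_le_one (by positivity)]
    linarith
  intro ρ hρ hρ0 v DV ε hv hDV hε hvb hDVb hM
  have hρa' : ρ ≤ ρa := hρ0.trans ((min_le_left _ _).trans (min_le_left _ _))
  have hρb' : ρ ≤ ρb := hρ0.trans ((min_le_left _ _).trans (min_le_right _ _))
  have hρA : A * ρ ≤ 1 / 2 := by
    have h := hρ0.trans (min_le_right _ _)
    rw [le_div_iff₀ (by positivity)] at h
    linarith
  have hρ1 : ρ ≤ 1 := hρa'.trans hρa1
  have hPW' : ∀ y : ℝ, ρ ^ 2 * (1 + y ^ 2) ^ 2 * ph1 K ρ y ≤ ph1 K ρ y + ρ ^ m := fun y => by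
    have := hPW ρ hρ hρa' y
    linarith
  obtain ⟨⟨a1, a2, a3, a4⟩, ⟨b1, b2, b3, b4⟩, ⟨c1, c2, c3, c4⟩, hψ, hpe⟩ :=
    weights h1 hK hρ hρ1 hPW'
  have hp8 := (h1 K ρ hK0 hρ).2.2.2.2.2.2.2.1
  -- the function
  have hεs : ContDiff ℝ (⊤ : ℕ∞) ε := hε.1
  have hcoe : ((2 : ℕ∞) : WithTop ℕ∞) ≤ ((⊤ : ℕ∞) : WithTop ℕ∞) := WithTop.coe_le_coe.2 le_top
  have hε2 : ContDiff ℝ 2 ε := hεs.of_le hcoe
  have m0 : MemLp ε 2 := by simpa using hε.2 0
  have i1 : iteratedDeriv 1 ε = deriv ε := iteratedDeriv_one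
  have i2 : iteratedDeriv 2 ε = deriv (deriv ε) := by
    rw [iteratedDeriv_succ, iteratedDeriv_one]
  have m1 : MemLp (deriv ε) 2 := by rw [← i1]; exact hε.2 1
  have m2 : MemLp (deriv (deriv ε)) 2 := by rw [← i2]; exact hε.2 2
  have ce : Continuous ε := hεs.continuous
  have ce1 : Continuous (deriv ε) := by
    rw [← i1]; exact (Pool.Agent.Helper36.KL.contDiff_iter hεs 1).continuous
  have ce2 : Continuous (deriv (deriv ε)) := by
    rw [← i2]; exact (Pool.Agent.Helper36.KL.contDiff_iter hεs 2).continuous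
  obtain ⟨Cb, hCb⟩ := Pool.Agent.Helper36.KL.exists_bound (u := ε) hε
  have s0 : Integrable (fun y => ε y ^ 2) := m0.integrable_sq
  have s1 : Integrable (fun y => deriv ε y ^ 2) := m1.integrable_sq
  have s2 : Integrable (fun y => deriv (deriv ε) y ^ 2) := m2.integrable_sq
  have s6 : Integrable (fun y => ε y ^ 6) := by
    have := int_w (w := fun y => ε y ^ 4) (M := Cb ^ 4) (ce.pow 4) (fun y => by
      rw [abs_pow]; exact pow_le_pow_left₀ (abs_nonneg _) (hCb y) 4) s0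
    refine this.congr (ae_of_all _ fun y => ?_)
    simp only
    ring
  have s10 : Integrable (fun y => ε y ^ 10) := by
    have := int_w (w := fun y => ε y ^ 8) (M := Cb ^ 8) (ce.pow 8) (fun y => by
      rw [abs_pow]; exact pow_le_pow_left₀ (abs_nonneg _) (hCb y) 8) s0
    refine this.congr (ae_of_all _ fun y => ?_)
    simp only
    ring
  have cφ : Continuous (wt K ρ) := a1.continuous
  have cp : Continuous (ph1 K ρ) := b1.continuous
  have cψ : Continuous (psiW K ρ) := c1.continuous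
  have bφ : ∀ y, |wt K ρ y| ≤ 1 := fun y => by rw [abs_of_pos (a2 y)]; exact a3 y
  have bp : ∀ y, |ph1 K ρ y| ≤ 1 := fun y => by rw [abs_of_pos (b2 y)]; exact b3 y
  have bψ : ∀ y, |psiW K ρ y| ≤ 8 := fun y => by rw [abs_of_pos (c2 y)]; exact c3 y
  have wφ0 := int_w cφ bφ s0
  have wφ1 := int_w cφ bφ s1
  have wφ6 := int_w cφ bφ s6
  have wp0 := int_w cp bp s0
  have wp1 := int_w cp bp s1
  have wp2 := int_w cp bp s2
  have wp6 := int_w cp bp s6
  have wp10 := int_w cp bp s10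
  have wψ0 := int_w cψ bψ s0
  have wψ1 := int_w cψ bψ s1
  have wψ6 := int_w cψ bψ s6
  -- integrals
  set M := ∫ y, ε y ^ 2 with hMdef
  set Hv := Hn K ρ ε with hHv
  set D := Dn K ρ ε with hDv
  have nM : 0 ≤ M := integral_nonneg fun y => sq_nonneg _
  have nφ0 : 0 ≤ ∫ y, wt K ρ y * ε y ^ 2 :=
    integral_nonneg fun y => mul_nonneg (a2 y).le (sq_nonneg _)
  have nφ1 : 0 ≤ ∫ y, wt K ρ y * deriv ε y ^ 2 :=
    integral_nonneg fun y => mul_nonneg (a2 y).le (sq_nonneg _)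
  have np0 : 0 ≤ ∫ y, ph1 K ρ y * ε y ^ 2 :=
    integral_nonneg fun y => mul_nonneg (b2 y).le (sq_nonneg _)
  have np1 : 0 ≤ ∫ y, ph1 K ρ y * deriv ε y ^ 2 :=
    integral_nonneg fun y => mul_nonneg (b2 y).le (sq_nonneg _)
  have np2 : 0 ≤ ∫ y, ph1 K ρ y * deriv (deriv ε) y ^ 2 :=
    integral_nonneg fun y => mul_nonneg (b2 y).le (sq_nonneg _)
  have eH : Hv = (∫ y, wt K ρ y * deriv ε y ^ 2) + ∫ y, wt K ρ y * ε y ^ 2 := by
    rw [hHv, Hn, ← integral_add wφ1 wφ0]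
    refine integral_congr_ae (ae_of_all _ fun y => ?_)
    simp only
    ring
  have eD : D = (∫ y, ph1 K ρ y * deriv (deriv ε) y ^ 2) + (∫ y, ph1 K ρ y * deriv ε y ^ 2)
      + ∫ y, ph1 K ρ y * ε y ^ 2 := by
    have e1 := integral_add (wp2.add wp1) wp0
    have e2 := integral_add wp2 wp1
    simp only [Pi.add_apply] at e1 e2
    rw [hDv, Dn, ← e2, ← e1]
    refine integral_congr_ae (ae_of_all _ fun y => ?_)
    simp only
    ring
  have ep12 : (∫ y, ph1 K ρ y * (deriv ε y ^ 2 + ε y ^ 2)) =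
      (∫ y, ph1 K ρ y * deriv ε y ^ 2) + ∫ y, ph1 K ρ y * ε y ^ 2 := by
    rw [← integral_add wp1 wp0]
    refine integral_congr_ae (ae_of_all _ fun y => ?_)
    simp only
    ring
  have ep20 : (∫ y, ph1 K ρ y * (deriv (deriv ε) y ^ 2 + ε y ^ 2)) =
      (∫ y, ph1 K ρ y * deriv (deriv ε) y ^ 2) + ∫ y, ph1 K ρ y * ε y ^ 2 := by
    rw [← integral_add wp2 wp0]
    refine integral_congr_ae (ae_of_all _ fun y => ?_)
    simp only
    ring
  have eψ : (∫ y, psiW K ρ y * (deriv ε y ^ 2 + ε y ^ 2)) =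
      (∫ y, psiW K ρ y * deriv ε y ^ 2) + ∫ y, psiW K ρ y * ε y ^ 2 := by
    rw [← integral_add wψ1 wψ0]
    refine integral_congr_ae (ae_of_all _ fun y => ?_)
    simp only
    ring
  obtain ⟨-, g1, -, -⟩ := h5 (wt K ρ) 1 a1 a2 a3 a4 ε hε2 m0 m1 m2
  obtain ⟨-, g2, -, g3⟩ := h5 (ph1 K ρ) 1 b1 b2 b3 b4 ε hε2 m0 m1 m2
  obtain ⟨-, g4, -, -⟩ := h5 (psiW K ρ) 8 c1 c2 c3 c4 ε hε2 m0 m1 m2
  have hI2 : (∫ y, wt K ρ y * ε y ^ 6) ≤ 8 * M ^ 2 * Hv := g1
  have hI4 : (∫ y, ph1 K ρ y * ε y ^ 6) ≤ 8 * M ^ 2 * D := by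
    refine g2.trans ?_
    rw [ep12]
    apply mul_le_mul_of_nonneg_left _ (by positivity)
    linarith
  have hI6 : (∫ y, ph1 K ρ y * ε y ^ 10) ≤ 256 * M ^ 4 * D := by
    refine g3.trans ?_
    rw [ep20]
    apply mul_le_mul_of_nonneg_left _ (by positivity)
    linarith
  have hψ1 : (∫ y, psiW K ρ y * deriv ε y ^ 2) ≤ D + ρ ^ m * M := by
    have h := hIN ρ hρ hρb' ε hε
    rw [one_mul, ep20] at h
    have h' : (∫ y, psiW K ρ y * deriv ε y ^ 2) =
        ∫ y, ρ ^ 2 * (4 + y ^ 2) * ph1 K ρ y * deriv ε y ^ 2 := rfl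
    rw [h']
    linarith
  have hψ0 : (∫ y, psiW K ρ y * ε y ^ 2) ≤ 4 * D + 4 * (ρ ^ m * M) := by
    have h : (∫ y, psiW K ρ y * ε y ^ 2) ≤
        ∫ y, (4 * (ph1 K ρ y * ε y ^ 2) + 4 * ρ ^ m * ε y ^ 2) := by
      refine integral_mono wψ0 ((wp0.const_mul 4).add (s0.const_mul (4 * ρ ^ m))) fun y => ?_
      have h1 := mul_le_mul_of_nonneg_right (hψ y) (sq_nonneg (ε y))
      simp only
      linarith
    rw [integral_add (wp0.const_mul 4) (s0.const_mul (4 * ρ ^ m)), integral_const_mul,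
      integral_const_mul] at h
    have h2 : 4 * ρ ^ m * ∫ y, ε y ^ 2 = 4 * (ρ ^ m * M) := by rw [hMdef]; ring
    rw [h2] at h
    linarith
  have hI5 : (∫ y, psiW K ρ y * ε y ^ 6) ≤ 40 * M ^ 2 * (D + ρ ^ m * M) := by
    refine g4.trans ?_
    rw [eψ]
    calc 8 * M ^ 2 * ((∫ y, psiW K ρ y * deriv ε y ^ 2) + ∫ y, psiW K ρ y * ε y ^ 2)
        ≤ 8 * M ^ 2 * ((D + ρ ^ m * M) + (4 * D + 4 * (ρ ^ m * M))) := by gcongr
      _ = _ := by ring
  -- the bound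
  set Bd : ℝ → ℝ := fun y => A * (ρ * (wt K ρ y * ε y ^ 2)) + A * (ρ * (wt K ρ y * ε y ^ 6)) +
    A * (ρ ^ (m + 1) * ε y ^ 2) + A * (ph1 K ρ y * ε y ^ 6) + A * (psiW K ρ y * ε y ^ 6) +
    A * (ph1 K ρ y * ε y ^ 10) +
    1 / 20 * (ph1 K ρ y * (deriv (deriv ε) y ^ 2 + deriv ε y ^ 2)) with hBd
  have w21 : Integrable (fun y => ph1 K ρ y * (deriv (deriv ε) y ^ 2 + deriv ε y ^ 2)) :=
    int_w cp bp (s2.add s1)
  have j1 : Integrable (fun y => A * (ρ * (wt K ρ y * ε y ^ 2))) :=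
    (wφ0.const_mul ρ).const_mul A
  have j2 : Integrable (fun y => A * (ρ * (wt K ρ y * ε y ^ 6))) :=
    (wφ6.const_mul ρ).const_mul A
  have j3 : Integrable (fun y => A * (ρ ^ (m + 1) * ε y ^ 2)) :=
    (s0.const_mul _).const_mul A
  have j4 : Integrable (fun y => A * (ph1 K ρ y * ε y ^ 6)) := wp6.const_mul A
  have j5 : Integrable (fun y => A * (psiW K ρ y * ε y ^ 6)) := wψ6.const_mul A
  have j6 : Integrable (fun y => A * (ph1 K ρ y * ε y ^ 10)) := wp10.const_mul A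
  have j7 : Integrable (fun y => 1 / 20 *
      (ph1 K ρ y * (deriv (deriv ε) y ^ 2 + deriv ε y ^ 2))) := w21.const_mul _
  have k2 := j1.add j2
  have k3 := k2.add j3
  have k4 := k3.add j4
  have k5 := k4.add j5
  have k6 := k5.add j6
  have k7 := k6.add j7
  have hBdI : Integrable Bd := k7
  have hBdE : ∫ y, Bd y = A * (ρ * ∫ y, wt K ρ y * ε y ^ 2) +
      A * (ρ * ∫ y, wt K ρ y * ε y ^ 6) + A * (ρ ^ m * ρ * M) +
      A * (∫ y, ph1 K ρ y * ε y ^ 6) + A * (∫ y, psiW K ρ y * ε y ^ 6) +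
      A * (∫ y, ph1 K ρ y * ε y ^ 10) +
      1 / 20 * ∫ y, ph1 K ρ y * (deriv (deriv ε) y ^ 2 + deriv ε y ^ 2) := by
    have e7 := integral_add k6 j7
    have e6 := integral_add k5 j6
    have e5 := integral_add k4 j5
    have e4 := integral_add k3 j4
    have e3 := integral_add k2 j3
    have e2 := integral_add j1 j2
    simp only [Pi.add_apply, integral_const_mul] at e2 e3 e4 e5 e6 e7
    rw [hBd]
    simp only
    rw [e7, e6, e5, e4, e3, e2, hMdef, pow_succ]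
  have hpt : ∀ y, |nlInt α K ρ v DV ε y| ≤ Bd y := by
    intro y
    exact nl_point hα0 hα1 hK hCV hρ hρ1 (a2 y) (b2 y) (hp8 y).2.1 (hp8 y).2.2.1 (hvb y)
      (hDVb y) (hpe y) (hPW' y) h2
  have hcont : Continuous (nlInt α K ρ v DV ε) := by
    have cp2 : Continuous (ph2 K ρ) :=
      continuous_iff_continuousAt.2 fun y =>
        ((h1 K ρ hK0 hρ).2.2.2.2.2.2.1 y).continuousAt
    unfold nlInt nG nG2 nGG
    fun_prop
  have hInt : Integrable (nlInt α K ρ v DV ε) :=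
    hBdI.mono' hcont.aestronglyMeasurable (ae_of_all _ hpt)
  refine ⟨hInt, ?_⟩
  have hle : (∫ y, nlInt α K ρ v DV ε y) ≤ ∫ y, Bd y :=
    integral_mono hInt hBdI fun y => (le_abs_self _).trans (hpt y)
  refine hle.trans ?_
  rw [hBdE]
  have hM1 : 100 * A * M ≤ 1 := by
    have h := hM
    rw [le_div_iff₀ (by positivity)] at h
    linarith
  have e21 : (∫ y, ph1 K ρ y * (deriv (deriv ε) y ^ 2 + deriv ε y ^ 2)) ≤ D := by
    have : (∫ y, ph1 K ρ y * (deriv (deriv ε) y ^ 2 + deriv ε y ^ 2)) =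
        (∫ y, ph1 K ρ y * deriv (deriv ε) y ^ 2) + ∫ y, ph1 K ρ y * deriv ε y ^ 2 := by
      rw [← integral_add wp2 wp1]
      refine integral_congr_ae (ae_of_all _ fun y => ?_)
      simp only
      ring
    rw [this]
    linarith
  exact nl_final hA1 hρ hρA nM hM1 (by linarith) (by linarith) (by positivity) (by linarith)
    hI2 hI4 hI5 hI6 e21


end Pool.Agent.Helper48.KV
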