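import Mathlib

/-!
# PROJECT KV (MP_66be51_an), shared base of the analysis sections

Jets (all spatial derivatives bundled as one function of the order), the algebraic
nonlinear quantities of the quintic gKdV equation, the class of time dependent smooth
fields, the flux of the general weighted energy identity.
-/

open MeasureTheory Set Filter Topology

noncomputable section

namespace Pool.Agent.Helper48.KV

/-- `e k` is the `k`-th derivative of `e 0`. -/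
def IsJet (e : ℕ → ℝ → ℝ) : Prop := ∀ k x, HasDerivAt (e k) (e (k + 1) x) x

/-- all derivatives square integrable (`H^∞` on the line). -/
def L2Jet (e : ℕ → ℝ → ℝ) : Prop :=
  IsJet e ∧ ∀ k, Integrable (fun x => e k x ^ 2)

/-- all derivatives bounded. -/
def BJet (p : ℕ → ℝ → ℝ) : Prop :=
  IsJet p ∧ ∀ k, ∃ C : ℝ, ∀ x, |p k x| ≤ C

/-- a smooth field on `[a,b] × ℝ`: `u k t x` is the `k`-th space derivative,
`ut k t x` is the time derivative of `u k`, everything jointly continuous. -/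
structure TJet (a b : ℝ) (u ut : ℕ → ℝ → ℝ → ℝ) : Prop where
  jet : ∀ t ∈ Icc a b, IsJet (fun k => u k t)
  jett : ∀ t ∈ Icc a b, IsJet (fun k => ut k t)
  dt : ∀ k, ∀ t ∈ Icc a b, ∀ x,
    HasDerivWithinAt (fun τ => u k τ x) (ut k t x) (Icc a b) t
  cont : ∀ k, ContinuousOn (fun z : ℝ × ℝ => u k z.1 z.2) (Icc a b ×ˢ univ)
  contt : ∀ k, ContinuousOn (fun z : ℝ × ℝ => ut k z.1 z.2) (Icc a b ×ˢ univ)

/-- uniform `L²` bounds at every order on `[a,b]`. -/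
def L2T (a b : ℝ) (u : ℕ → ℝ → ℝ → ℝ) : Prop :=
  ∀ k, ∃ C : ℝ, ∀ t ∈ Icc a b, Integrable (fun x => u k t x ^ 2) ∧ ∫ x, u k t x ^ 2 ≤ C

/-- uniform sup bounds at every order on `[a,b]`. -/
def BT (a b : ℝ) (u : ℕ → ℝ → ℝ → ℝ) : Prop :=
  ∀ k, ∃ C : ℝ, ∀ t ∈ Icc a b, ∀ x, |u k t x| ≤ C

/-- `(U+e)^5 - U^5`. -/
def nG (U e : ℝ) : ℝ := (U + e) ^ 5 - U ^ 5

/-- `(U+e)^5 - U^5 - 5U^4e`. -/
def nG2 (U e : ℝ) : ℝ := (U + e) ^ 5 - U ^ 5 - 5 * U ^ 4 * e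

/-- `(U+e)^6 - U^6 - 6U^5e`. -/
def nGG (U e : ℝ) : ℝ := (U + e) ^ 6 - U ^ 6 - 6 * U ^ 5 * e

/-- space derivative of `nG`. -/
def nGx (U U1 e e1 : ℝ) : ℝ := 5 * (U + e) ^ 4 * (U1 + e1) - 5 * U ^ 4 * U1

/-- second space derivative of `nG`. -/
def nGxx (U U1 U2 e e1 e2 : ℝ) : ℝ :=
  20 * (U + e) ^ 3 * (U1 + e1) ^ 2 + 5 * (U + e) ^ 4 * (U2 + e2)
    - 20 * U ^ 3 * U1 ^ 2 - 5 * U ^ 4 * U2

/-- the density of the functional: `p e² + q (e_x² - GG/3)`. -/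
def dens (p q U e e1 : ℝ) : ℝ := p * e ^ 2 + q * (e1 ^ 2 - nGG U e / 3)

/-- what the time derivative of the density gives when `e_t = -e_xxx - G_x + S`
(`et`, `e1t` inserted), apart from the terms with `p_t, q_t, U_t`. -/
def lhsD (p q U U1 U2 e e1 e2 e3 e4 S S1 : ℝ) : ℝ :=
  2 * p * e * (-e3 - nGx U U1 e e1 + S) + 2 * q * e1 * (-e4 - nGxx U U1 U2 e e1 e2 + S1)
    - 2 * q * nG U e * (-e3 - nGx U U1 e e1 + S)

/-- the right-hand side of the static identity. -/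
def rhsD (p p1 p3 q q1 q2 q3 U U1 e e1 e2 S S1 : ℝ) : ℝ :=
  -3 * q1 * e2 ^ 2 + (q3 - 3 * p1) * e1 ^ 2 + p3 * e ^ 2 - p1 * nGG U e / 3
    - 2 * p * U1 * nG2 U e + 2 * p1 * nG U e * e
    - nG U e * (4 * q1 * e2 + 2 * q2 * e1) - q1 * nG U e ^ 2
    + 2 * (p * S * e + q * S1 * e1 - q * S * nG U e)

/-- the flux of the general identity. -/
def fluxD (p p1 p2 q q1 q2 U U1 e e1 e2 e3 : ℝ) : ℝ :=
  -2 * p * e * e2 + p * e1 ^ 2 + 2 * p1 * e * e1 - p2 * e ^ 2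
    - 2 * q * e1 * e3 + q * e2 ^ 2 + 2 * q1 * e1 * e2 - q2 * e1 ^ 2
    - 2 * p * e * nG U e + p * nGG U e / 3
    - 2 * q * e1 * nGx U U1 e e1 + 2 * q * nG U e * e2 + 2 * q1 * e1 * nG U e
    + q * nG U e ^ 2

end Pool.Agent.Helper48.KV
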