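import Pool.Agent.Helper48.KV.Base

open MeasureTheory Set Filter Topology

namespace Pool.Agent.Helper48.KV

theorem hasDerivAt_nG {e U : ℕ → ℝ → ℝ} (he : IsJet e) (hU : IsJet U) (x : ℝ) :
    HasDerivAt (fun y => nG (U 0 y) (e 0 y)) (nGx (U 0 x) (U 1 x) (e 0 x) (e 1 x)) x := by
  have H := (((hU 0 x).add (he 0 x)).pow 5).sub ((hU 0 x).pow 5)
  refine (H.congr_of_eventuallyEq (Eventually.of_forall fun y => ?_)).congr_deriv ?_
  · simp [nG]
  · simp [nGx]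

theorem hasDerivAt_nGG {e U : ℕ → ℝ → ℝ} (he : IsJet e) (hU : IsJet U) (x : ℝ) :
    HasDerivAt (fun y => nGG (U 0 y) (e 0 y))
      (6 * nG (U 0 x) (e 0 x) * e 1 x + 6 * nG2 (U 0 x) (e 0 x) * U 1 x) x := by
  have H := ((((hU 0 x).add (he 0 x)).pow 6).sub ((hU 0 x).pow 6)).sub
    ((((hU 0 x).pow 5).const_mul 6).mul (he 0 x))
  refine (H.congr_of_eventuallyEq (Eventually.of_forall fun y => ?_)).congr_deriv ?_
  · simp [nGG]
  · simp [nG, nG2]; ring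

theorem hasDerivAt_nGx {e U : ℕ → ℝ → ℝ} (he : IsJet e) (hU : IsJet U) (x : ℝ) :
    HasDerivAt (fun y => nGx (U 0 y) (U 1 y) (e 0 y) (e 1 y))
      (nGxx (U 0 x) (U 1 x) (U 2 x) (e 0 x) (e 1 x) (e 2 x)) x := by
  have H := (((((hU 0 x).add (he 0 x)).pow 4).const_mul 5).mul ((hU 1 x).add (he 1 x))).sub
    ((((hU 0 x).pow 4).const_mul 5).mul (hU 1 x))
  refine (H.congr_of_eventuallyEq (Eventually.of_forall fun y => ?_)).congr_deriv ?_
  · simp [nGx]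
  · simp [nGxx]; ring

/-- the flux identity: `∂ₓ flux = lhsD - rhsD`. -/
theorem flux_hasDeriv (e U p q S : ℕ → ℝ → ℝ) (he : IsJet e) (hU : IsJet U) (hp : IsJet p)
    (hq : IsJet q) (x : ℝ) :
    HasDerivAt (fun y => fluxD (p 0 y) (p 1 y) (p 2 y) (q 0 y) (q 1 y) (q 2 y) (U 0 y) (U 1 y)
      (e 0 y) (e 1 y) (e 2 y) (e 3 y))
      (lhsD (p 0 x) (q 0 x) (U 0 x) (U 1 x) (U 2 x) (e 0 x) (e 1 x) (e 2 x) (e 3 x) (e 4 x)
          (S 0 x) (S 1 x)
        - rhsD (p 0 x) (p 1 x) (p 3 x) (q 0 x) (q 1 x) (q 2 x) (q 3 x) (U 0 x) (U 1 x)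
          (e 0 x) (e 1 x) (e 2 x) (S 0 x) (S 1 x)) x := by
  have e0 := he 0 x
  have e1 := he 1 x
  have e2 := he 2 x
  have e3 := he 3 x
  have U0 := hU 0 x
  have U1 := hU 1 x
  have p0 := hp 0 x
  have p1 := hp 1 x
  have p2 := hp 2 x
  have q0 := hq 0 x
  have q1 := hq 1 x
  have q2 := hq 2 x
  have hG := hasDerivAt_nG he hU x
  have hGG := hasDerivAt_nGG he hU x
  have hGx := hasDerivAt_nGx he hU x
  simp only [zero_add, Nat.reduceAdd] at *
  have H := (((((((((((((((p0.const_mul (-2)).mul e0).mul e2).add (p0.mul (e1.pow 2))).add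
    (((p1.const_mul 2).mul e0).mul e1)).sub (p2.mul (e0.pow 2))).sub
    (((q0.const_mul 2).mul e1).mul e3)).add (q0.mul (e2.pow 2))).add
    (((q1.const_mul 2).mul e1).mul e2)).sub (q2.mul (e1.pow 2))).sub
    (((p0.const_mul 2).mul e0).mul hG)).add ((p0.mul hGG).div_const 3)).sub
    (((q0.const_mul 2).mul e1).mul hGx)).add (((q0.const_mul 2).mul hG).mul e2)).add
    (((q1.const_mul 2).mul e1).mul hG)).add (q0.mul (hG.pow 2))
  refine (H.congr_of_eventuallyEq (Eventually.of_forall fun y => ?_)).congr_deriv ?_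
  · simp [fluxD]
  · simp [lhsD, rhsD]; ring

end Pool.Agent.Helper48.KV
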