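import Pool.Agent.Helper33.KV.Defs
import Pool.Agent.Helper41.KV.GoalsE
import Pool.Agent.Helper48.KV.Flux

/-!
# PROJECT KV (MP_66be51_an), section G: definitions for the right functional (G1 - G3)

`HI`, `BI`, `BInf`: function classes. `ph1, ph2, ph3`: derivatives of the logistic weight `wt`.
`tInt`: the integrand of the time derivative of the general weighted functional.
`freeInt + nlInt + srcInt = hInt`: the same in the inner variables of the soliton.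
-/

open MeasureTheory Set Filter Topology

noncomputable section

namespace Pool.Agent.Helper48.KV

open Pool.Agent.Helper33.KV Pool.Agent.Helper41.KV

/-- `H^∞` function on the line. -/
def HI (f : ℝ → ℝ) : Prop := ContDiff ℝ (⊤ : ℕ∞) f ∧ ∀ k : ℕ, MemLp (iteratedDeriv k f) 2

/-- Smooth with all derivatives bounded. -/
def BI (f : ℝ → ℝ) : Prop :=
  ContDiff ℝ (⊤ : ℕ∞) f ∧ ∀ k : ℕ, ∃ C : ℝ, ∀ x, |iteratedDeriv k f x| ≤ C

/-- Bounded smooth time dependent field `p` with (bounded, continuous) time derivative `pt`. -/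
structure BInf (p pt : ℝ → ℝ → ℝ) (t1 t2 : ℝ) : Prop where
  smooth : ∀ t ∈ Icc t1 t2, ContDiff ℝ (⊤ : ℕ∞) (p t)
  cont : ∀ k : ℕ, ContinuousOn (fun z : ℝ × ℝ => iteratedDeriv k (p z.1) z.2)
    (Icc t1 t2 ×ˢ univ)
  bound : ∀ k : ℕ, ∃ C : ℝ, ∀ t ∈ Icc t1 t2, ∀ x, |iteratedDeriv k (p t) x| ≤ C
  dt : ∀ t ∈ Icc t1 t2, ∀ x, HasDerivWithinAt (fun τ => p τ x) (pt t x) (Icc t1 t2) t
  contt : ContinuousOn (fun z : ℝ × ℝ => pt z.1 z.2) (Icc t1 t2 ×ˢ univ)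
  boundt : ∃ C : ℝ, ∀ t ∈ Icc t1 t2, ∀ x, |pt t x| ≤ C

/-- The source `S = e_t + e_xxx + ((U+e)^5 - U^5)_x`. -/
def srcS (U e et : ℝ → ℝ → ℝ) (t x : ℝ) : ℝ :=
  et t x + iteratedDeriv 3 (e t) x + deriv (fun x' => nG (U t x') (e t x')) x

/-- The functional with weights `p, q`. -/
def fun2 (p q U e : ℝ → ℝ → ℝ) (t : ℝ) : ℝ :=
  ∫ x, dens (p t x) (q t x) (U t x) (e t x) (deriv (e t) x)

/-- The integrand of its time derivative. -/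
def tInt (p pt q qt U Ut e et : ℝ → ℝ → ℝ) (t x : ℝ) : ℝ :=
  rhsD (p t x) (deriv (p t) x) (iteratedDeriv 3 (p t) x) (q t x) (deriv (q t) x)
      (iteratedDeriv 2 (q t) x) (iteratedDeriv 3 (q t) x) (U t x) (deriv (U t) x)
      (e t x) (deriv (e t) x) (iteratedDeriv 2 (e t) x) (srcS U e et t x)
      (deriv (srcS U e et t) x)
    + pt t x * e t x ^ 2 + qt t x * (deriv (e t) x ^ 2 - nGG (U t x) (e t x) / 3)
    - 2 * q t x * nG2 (U t x) (e t x) * Ut t x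

/-- `∂_y wt`. -/
def ph1 (K ρ y : ℝ) : ℝ := wt K ρ y * (1 - wt K ρ y) / K

/-- `∂_y^2 wt`. -/
def ph2 (K ρ y : ℝ) : ℝ := ph1 K ρ y * (1 - 2 * wt K ρ y) / K

/-- `∂_y^3 wt`. -/
def ph3 (K ρ y : ℝ) : ℝ := ph1 K ρ y * (1 - 6 * wt K ρ y + 6 * wt K ρ y ^ 2) / K ^ 2

/-- The weight in the original variables. -/
def pW (α K : ℝ) (t x : ℝ) : ℝ := wt K (rho α t) ((x - sig α t) / lam α t)

/-- Its time derivative. -/
def pWt (α K : ℝ) (t x : ℝ) : ℝ :=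
  -(ph1 K (rho α t) ((x - sig α t) / lam α t) / lam α t ^ 3 *
    (1 + (2 * α + 1) * rho α t * ((x - sig α t) / lam α t) + 2 * α * K * rho α t))

/-- `λ^2 pW`. -/
def qW (α K : ℝ) (t x : ℝ) : ℝ := lam α t ^ 2 * pW α K t x

/-- Its time derivative. -/
def qWt (α K : ℝ) (t x : ℝ) : ℝ :=
  lam α t ^ 2 * (pWt α K t x + 2 * ((2 * α + 1) * rho α t / lam α t ^ 3) * pW α K t x)

/-- The quadratic part. -/
def freeInt (α K ρ : ℝ) (ε : ℝ → ℝ) (y : ℝ) : ℝ :=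
  -3 * ph1 K ρ y * deriv (deriv ε) y ^ 2
    + (2 * ((2 * α + 1) * ρ) * wt K ρ y
        - ph1 K ρ y * (4 + (2 * α + 1) * ρ * y + 2 * α * K * ρ) + ph3 K ρ y) * deriv ε y ^ 2
    + (-(ph1 K ρ y * (1 + (2 * α + 1) * ρ * y + 2 * α * K * ρ)) + ph3 K ρ y) * ε y ^ 2

/-- The nonlinear part. `DV` stands for `λ^{7/2} V_t + v_y`. -/
def nlInt (α K ρ : ℝ) (v DV ε : ℝ → ℝ) (y : ℝ) : ℝ :=
  -((2 * ((2 * α + 1) * ρ) * wt K ρ y
        - ph1 K ρ y * ((2 * α + 1) * ρ * y + 2 * α * K * ρ)) * nGG (v y) (ε y) / 3)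
    - 2 * wt K ρ y * nG2 (v y) (ε y) * DV y
    + 2 * ph1 K ρ y * nG (v y) (ε y) * ε y
    - nG (v y) (ε y) * (4 * ph1 K ρ y * deriv (deriv ε) y + 2 * ph2 K ρ y * deriv ε y)
    - ph1 K ρ y * nG (v y) (ε y) ^ 2

/-- The source part. -/
def srcInt (K ρ : ℝ) (v ε S : ℝ → ℝ) (y : ℝ) : ℝ :=
  2 * wt K ρ y * (S y * ε y + deriv S y * deriv ε y - S y * nG (v y) (ε y))

/-- The whole integrand in inner variables. -/
def hInt (α K ρ : ℝ) (v DV ε S : ℝ → ℝ) (y : ℝ) : ℝ :=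
  freeInt α K ρ ε y + nlInt α K ρ v DV ε y + srcInt K ρ v ε S y

/-- The right functional in inner variables. -/
def Hf (K ρ : ℝ) (v ε : ℝ → ℝ) : ℝ :=
  ∫ y, wt K ρ y * (deriv ε y ^ 2 + ε y ^ 2 - nGG (v y) (ε y) / 3)

/-- The weighted norm (squared). -/
def Hn (K ρ : ℝ) (ε : ℝ → ℝ) : ℝ := ∫ y, wt K ρ y * (deriv ε y ^ 2 + ε y ^ 2)

/-- The dissipation. -/
def Dn (K ρ : ℝ) (ε : ℝ → ℝ) : ℝ :=
  ∫ y, ph1 K ρ y * (deriv (deriv ε) y ^ 2 + deriv ε y ^ 2 + ε y ^ 2)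

/-- `λ^{7/2} V_t + ∂_y v` in inner variables. -/
def DVf (α : ℝ) (V Vt : ℝ → ℝ → ℝ) (t y : ℝ) : ℝ :=
  lam α t ^ 3 * inn α Vt t y + deriv (inn α V t) y

/-- `λ^{7/2} S` in inner variables. -/
def Sin (α : ℝ) (V e et : ℝ → ℝ → ℝ) (t y : ℝ) : ℝ :=
  lam α t ^ 3 * inn α (srcS V e et) t y

end Pool.Agent.Helper48.KV
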