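import Pool.Agent.Helper48.KV.GoalsG1
import Pool.Agent.Helper25.KV.Defs

/-!
# PROJECT KV (MP_66be51_an), section G5 (left functional): definitions

`w = u - g`, `g` = sum of the wave packets. The functional is `fun2 pJ qJ g w` with
`pJ = PJ c`, `qJ = QJ c`, where (with `η = z/(3t)`, `z = A - x`, `h(η) = (η/(1+rη))^κ`)
`PJ = h - η h'`, `QJ = h'`, `RJ = -h''/(3t)`, `EJ = η RJ`, and `c = cJ` cuts off the soliton.
-/

open MeasureTheory Set Filter Topology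

noncomputable section

namespace Pool.Agent.Helper48.KV

open Pool.Agent.Helper33.KV Pool.Agent.Helper41.KV

/-- `h = (z/(3t+rz))^κ`. -/
def hJ (κ r t z : ℝ) : ℝ := (z / (3 * t + r * z)) ^ κ

/-- `h'(η)`. -/
def QJ (κ r t z : ℝ) : ℝ := 9 * κ * t ^ 2 * hJ κ r t z / (z * (3 * t + r * z))

/-- `h - η h'`. -/
def PJ (κ r t z : ℝ) : ℝ := hJ κ r t z * (1 - 3 * κ * t / (3 * t + r * z))

/-- `-h''/(3t)`. -/
def RJ (κ r t z : ℝ) : ℝ := QJ κ r t z * ((1 - κ) / z + (1 + κ) * r / (3 * t + r * z))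

/-- `η RJ`. -/
def EJ (κ r t z : ℝ) : ℝ := z / (3 * t) * RJ κ r t z

/-- A global smooth version of `A - x`. -/
structure IsZ (z : ℝ → ℝ) (A : ℝ) : Prop where
  smooth : ContDiff ℝ (⊤ : ℕ∞) z
  lin : ∀ x, x ≤ 1 → z x = A - x
  ge : ∀ x, 100 ≤ z x
  d1 : ∀ x, |deriv z x| ≤ z x / 10
  bd : ∀ k : ℕ, 1 ≤ k → ∃ C : ℝ, ∀ x, |iteratedDeriv k z x| ≤ C

/-- The cut-off: `1` where `wt ≤ 1/4`, `0` where `wt ≥ 3/4`. -/
def dJ (α K t x : ℝ) : ℝ := Real.smoothTransition (3 / 2 - 2 * pW α K t x)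

/-- Its time derivative. -/
def dJt (α K t x : ℝ) : ℝ :=
  deriv Real.smoothTransition (3 / 2 - 2 * pW α K t x) * (-2 * pWt α K t x)

/-- The tenth power. -/
def cJ (α K t x : ℝ) : ℝ := dJ α K t x ^ 10

/-- Its time derivative. -/
def cJt (α K t x : ℝ) : ℝ := 10 * dJ α K t x ^ 9 * dJt α K t x

/-- The transition region. -/
def nearS (α K t : ℝ) : Set ℝ := {x | 1 / 4 ≤ pW α K t x ∧ pW α K t x ≤ 3 / 4}

/-- Its indicator. -/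
def ind (α K t x : ℝ) : ℝ := (nearS α K t).indicator (fun _ => (1 : ℝ)) x

/-- The weights of the left functional. -/
def pJ (α K κ r : ℝ) (z : ℝ → ℝ) (t x : ℝ) : ℝ := PJ κ r t (z x) * cJ α K t x

/-- Time derivative of `pJ`. -/
def pJt (α K κ r : ℝ) (z : ℝ → ℝ) (t x : ℝ) : ℝ :=
  -(z x / t) * EJ κ r t (z x) * cJ α K t x + PJ κ r t (z x) * cJt α K t x

/-- The second weight. -/
def qJ (α K κ r : ℝ) (z : ℝ → ℝ) (t x : ℝ) : ℝ := QJ κ r t (z x) * cJ α K t x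

/-- Time derivative of `qJ`. -/
def qJt (α K κ r : ℝ) (z : ℝ → ℝ) (t x : ℝ) : ℝ :=
  3 * EJ κ r t (z x) * cJ α K t x + QJ κ r t (z x) * cJt α K t x

/-- `∫ d^2 w^2`. -/
def Nd (α K t : ℝ) (w : ℝ → ℝ) : ℝ := ∫ x, dJ α K t x ^ 2 * w x ^ 2

/-- `∫ c h w^2`. -/
def Hc (α K κ r : ℝ) (z : ℝ → ℝ) (t : ℝ) (w : ℝ → ℝ) : ℝ :=
  ∫ x, cJ α K t x * hJ κ r t (z x) * w x ^ 2

/-- `∫ c h' w_x^2`. -/
def Qc (α K κ r : ℝ) (z : ℝ → ℝ) (t : ℝ) (w : ℝ → ℝ) : ℝ :=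
  ∫ x, cJ α K t x * QJ κ r t (z x) * deriv w x ^ 2

/-- The quadratic part of the functional. -/
def Jqf (α K κ r : ℝ) (z : ℝ → ℝ) (t : ℝ) (w : ℝ → ℝ) : ℝ :=
  ∫ x, (pJ α K κ r z t x * w x ^ 2 + qJ α K κ r z t x * deriv w x ^ 2)

/-- The dissipation `∫ c R (w_xx + η w)^2`. -/
def XJ (α K κ r : ℝ) (z : ℝ → ℝ) (t : ℝ) (w : ℝ → ℝ) : ℝ :=
  ∫ x, cJ α K t x * RJ κ r t (z x) * (iteratedDeriv 2 w x + z x / (3 * t) * w x) ^ 2

/-- Integrand of `NRf`. -/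
def nrI (α t : ℝ) (w : ℝ → ℝ) (x : ℝ) : ℝ :=
  lam α t ^ 4 * iteratedDeriv 2 w x ^ 2 + lam α t ^ 2 * deriv w x ^ 2 + w x ^ 2
    + lam α t ^ 4 * w x ^ 10

/-- Terms in the transition region, all orders. -/
def NRf (α K t : ℝ) (w : ℝ → ℝ) : ℝ := ∫ x, ind α K t x * nrI α t w x

/-- Terms in the transition region, low orders. -/
def NR0f (α K t : ℝ) (w : ℝ → ℝ) : ℝ :=
  ∫ x, ind α K t x * (lam α t ^ 2 * deriv w x ^ 2 + w x ^ 2)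

/-- Kato weight, decreasing from `1` to `0` at `-X` with width `L`. -/
def aK (X L x : ℝ) : ℝ := wt L 1 (-(x + X))

/-- `- aK'`. -/
def bK (X L x : ℝ) : ℝ := ph1 L 1 (-(x + X))

/-- The Kato weight with the cut-off. -/
def pK (α K X L : ℝ) (t x : ℝ) : ℝ := aK X L x * cJ α K t x

/-- Its time derivative. -/
def pKt (α K X L : ℝ) (t x : ℝ) : ℝ := aK X L x * cJt α K t x

/-- The zero field. -/
def zF : ℝ → ℝ → ℝ := fun _ _ => 0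

/-- `∫ b_k c w_x^2`. -/
def Bk (α K X L t : ℝ) (w : ℝ → ℝ) : ℝ := ∫ x, bK X L x * cJ α K t x * deriv w x ^ 2

/-- The parameters: `κ = 1/(5q)`, `X_j = 4·4^{10 q j}`, `L_j = 4^{10 j} = 2^{20 j}`. -/
def kq (q : ℕ) : ℝ := 1 / (5 * q)

def Xq (q j : ℕ) : ℝ := 4 * 4 ^ (10 * q * j)

def Lq (j : ℕ) : ℝ := 4 ^ (10 * j)

/-- Support of the `j`-th packet. -/
def Iq (q j : ℕ) : Set ℝ := Icc (-(Xq q j) - Lq j) (-(Xq q j) + Lq j)

/-- The sum of the packets. -/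
def gq (q k0 n : ℕ) : ℝ → ℝ → ℝ := Pool.Agent.Helper25.KV.gp 10 (10 * q) k0 n

/-- Its time derivative. -/
def gqt (q k0 n : ℕ) (t x : ℝ) : ℝ := deriv (fun s => gq q k0 n s x) t

/-- The source produced by the packets: `-(g_t + g_xxx + (g^5)_x)`. -/
def Sq (q k0 n : ℕ) (t x : ℝ) : ℝ :=
  -(gqt q k0 n t x + iteratedDeriv 3 (gq q k0 n t) x + deriv (fun x' => gq q k0 n t x' ^ 5) x)

end Pool.Agent.Helper48.KV
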